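import Pool.Agent.P.MP_67bca4_pr.AH.D2

/-!
Basic facts about the scales and the local functionals.
-/

namespace Pool.Agent.P.MP_67bca4_pr

open Finset
open scoped Classical

variable {D : ℕ}

lemma clus_congr {B B' : V D → Prop} {lam Λ : ℕ} (h : ∀ w ∈ ball D Λ, B w ↔ B' w) :
    clus B lam Λ = clus B' lam Λ := by
  have : (fun v v' : V D => v' ∈ ball D Λ ∧ B v' ∧ v' - v ∈ ball D lam) =
      fun v v' => v' ∈ ball D Λ ∧ B' v' ∧ v' - v ∈ ball D lam := by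
    funext v v'
    exact propext ⟨fun H => ⟨H.1, (h _ H.1).1 H.2.1, H.2.2⟩, fun H => ⟨H.1, (h _ H.1).2 H.2.1, H.2.2⟩⟩
  unfold clus
  rw [this]

lemma isRoot_congr {B B' : V D → Prop} {lam Λ k₀ : ℕ} (h : ∀ w ∈ ball D Λ, B w ↔ B' w) :
    IsRoot B lam Λ k₀ ↔ IsRoot B' lam Λ k₀ := by
  unfold IsRoot
  rw [clus_congr h, h 0 (zero_mem_ball _), filter_congr h]

lemma clus_sub_ball (B : V D → Prop) (lam Λ : ℕ) : clus B lam Λ ⊆ ball D Λ := filter_subset _ _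

namespace Par

variable (P : Par D)

lemma r0_eq : P.r0 = 2 * P.rc := rfl
lemma rc_eq : P.rc = P.g + P.r00 + 1 := rfl
lemma r00_eq : P.r00 = P.lb + 25 * P.MP + 3 := rfl
lemma nL_eq : P.nL = P.r0 + 2 * P.g := rfl
lemma nQ_eq : P.nQ = 2 * P.RQ + P.r0 := rfl
lemma lam_eq : P.lam = 4 * P.r + 1 := rfl
lemma RQ_eq : P.RQ = P.Lam * P.r0 + 2 * P.r + P.g + 1 := rfl
lemma Lam_eq : P.Lam = (P.k0 + 1) * P.lam := rfl
lemma r0_ge : 8 ≤ P.r0 := by rw [r0_eq, rc_eq, r00_eq]; omega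
lemma r0_pos : (0 : ℤ) < P.r0 := by have := P.r0_ge; omega
lemma lam_le_Lam : P.lam ≤ P.Lam := by rw [Lam_eq]; exact Nat.le_mul_of_pos_left _ (by omega)
lemma nL_le_nQ : P.nL ≤ P.nQ := by rw [nL_eq, nQ_eq, RQ_eq]; omega
lemma Lam_le_rs : P.Lam ≤ P.rs := by unfold rs; omega

lemma blk_bounds (x : V D) (i : Fin D) :
    P.r0 * P.blk x i ≤ x i ∧ x i ≤ P.r0 * P.blk x i + P.r0 - 1 := by
  have hq := P.r0_pos
  have h1 := Int.mul_ediv_add_emod (x i) P.r0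
  have h2 := Int.emod_nonneg (x i) hq.ne'
  have h3 := Int.emod_lt_of_pos (x i) hq
  simp only [blk]
  constructor <;> linarith

lemma blk_mem_hatB {n : ℕ} {x : V D} (hx : x ∈ hatB D n) : P.blk x ∈ hatB D n := by
  refine mem_hatB.2 fun i => ?_
  have h := mem_hatB.1 hx i
  exact ⟨Int.ediv_nonneg h.1 P.r0_pos.le, (Int.ediv_le_self _ h.1).trans h.2⟩

lemma cB_injective : Function.Injective P.cB := fun z z' h => by
  funext i
  exact mul_left_cancel₀ P.r0_pos.ne' (congrFun h i)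

lemma mem_nb {ρ : ℕ} {S : Finset (V D)} {x : V D} : x ∈ P.nb ρ S ↔ ∃ w ∈ S, ∀ i,
    P.r0 * w i + P.RQ - ρ ≤ x i ∧ x i ≤ P.r0 * w i + P.RQ + P.r0 - 1 + ρ := by
  simp only [nb, mem_biUnion, Fintype.mem_piFinset, mem_Icc]

lemma nb_mono {ρ ρ' : ℕ} (h : ρ ≤ ρ') (S : Finset (V D)) : P.nb ρ S ⊆ P.nb ρ' S := by
  intro x hx
  obtain ⟨w, hw, h1⟩ := P.mem_nb.1 hx
  exact P.mem_nb.2 ⟨w, hw, fun i => by have := h1 i; omega⟩

lemma mul_ball {w : V D} (hw : w ∈ ball D P.Lam) (i : Fin D) :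
    -((P.Lam * P.r0 : ℕ) : ℤ) ≤ P.r0 * w i ∧ P.r0 * w i ≤ ((P.Lam * P.r0 : ℕ) : ℤ) := by
  have h := mem_ball.1 hw i
  have hq := P.r0_pos
  push_cast
  constructor <;> nlinarith [h.1, h.2]

lemma nb_sub_inB {ρ : ℕ} (hρ : ρ ≤ 2 * P.r) {S : Finset (V D)} (hS : S ⊆ ball D P.Lam) :
    P.nb ρ S ⊆ inB D P.nQ := by
  intro x hx
  obtain ⟨w, hw, h1⟩ := P.mem_nb.1 hx
  refine mem_inB.2 fun i => ?_
  have h2 := h1 i
  have h3 := P.mul_ball (hS hw) i
  have h4 := P.RQ_eq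
  have h5 := P.nQ_eq
  omega

lemma card_nb_zero (S : Finset (V D)) : (P.nb 0 S).card ≤ S.card * P.r0 ^ D := by
  refine card_biUnion_le_card_mul _ _ _ fun w _ => le_of_eq ?_
  rw [Fintype.card_piFinset]
  have : ∀ i : Fin D, (Finset.Icc (P.r0 * w i + P.RQ - (0 : ℕ) : ℤ)
      (P.r0 * w i + P.RQ + P.r0 - 1 + (0 : ℕ))).card = P.r0 := fun i => by
    rw [Int.card_Icc]; omega
  simp only [this, prod_const, card_univ, Fintype.card_fin]

/-- A column outside the `ρ + σ`-neighbourhood is far from the `ρ`-neighbourhood. -/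
lemma far_nb {ρ σ : ℕ} {S : Finset (V D)} {p q : V D} (hp : p ∈ P.nb ρ S)
    (hq : q ∉ P.nb (ρ + σ) S) : (σ : ℝ) ≤ l1 (q - p) := by
  obtain ⟨w, hw, h1⟩ := P.mem_nb.1 hp
  rw [P.mem_nb] at hq
  push Not at hq
  obtain ⟨i, hi⟩ := hq w hw
  refine le_trans ?_ (abs_le_l1 _ i)
  have h2 := h1 i
  have h3 : (σ : ℤ) ≤ |(q - p) i| := by
    rw [Pi.sub_apply, le_abs]
    push_cast at hi
    omega
  exact_mod_cast h3

lemma Kl_sub (b : ℝ) (u : ℤ) (η : Dis D) : P.Kl b u η ⊆ ball D P.Lam := clus_sub_ball _ _ _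
lemma core_sub (b : ℝ) (u : ℤ) (η : Dis D) : P.core b u η ⊆ inB D P.nQ :=
  P.nb_sub_inB (by omega) (P.Kl_sub b u η)

lemma cubeIn_L {w : V D} (hw : w ∈ ball D P.Lam) : CubeIn (P.cL w + cv P.RQ) P.nL P.nQ := by
  intro i
  have h3 := P.mul_ball hw i
  have h4 := P.RQ_eq
  have h5 := P.nQ_eq
  have h6 := P.nL_eq
  simp only [Pi.add_apply, cL, cv_apply]
  omega

lemma blkL_sub : P.blkL ⊆ hatB D P.nL := fun x hx => mem_hatB.2 fun i => by
  have := mem_cube.1 hx i; have := P.nL_eq; omega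

lemma card_blkL : P.blkL.card = P.r0 ^ D := card_cube _ _

/-- The margin of the block inside its small cube. -/
lemma far_blkL {p q : V D} (hp : p ∈ P.blkL) (hq : q ∉ inB D P.nL) : (P.g : ℝ) ≤ l1 (q - p) := by
  rw [mem_inB] at hq
  push Not at hq
  obtain ⟨i, hi⟩ := hq
  refine le_trans ?_ (abs_le_l1 _ i)
  have h2 := mem_cube.1 hp i
  have h4 := P.nL_eq
  have h3 : (P.g : ℤ) ≤ |(q - p) i| := by
    rw [Pi.sub_apply, le_abs]
    omega
  exact_mod_cast h3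

lemma mem_ZQ {n : ℕ} {z : V D} : z ∈ P.ZQ n ↔ CubeIn (P.cQ z) P.nQ n := by
  refine ⟨fun h => (mem_filter.1 h).2, fun h => mem_filter.2 ⟨mem_hatB.2 fun i => ?_, h⟩⟩
  have h1 := h i
  have h2 := P.r0_pos
  have h3 := P.nQ_eq
  simp only [cQ] at h1
  have h4 : 0 ≤ z i := by
    by_contra h5
    have : (P.r0 : ℤ) * z i < 0 := mul_neg_of_pos_of_neg h2 (by omega)
    omega
  have h5 : z i ≤ P.r0 * z i := le_mul_of_one_le_left h4 (by omega)
  omega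

lemma add_mem_ZL {n : ℕ} {z w : V D} (hz : z ∈ P.ZQ n) (hw : w ∈ ball D P.Lam) :
    z + w ∈ P.ZL n := by
  have h := P.mem_ZQ.1 hz
  have key : ∀ i, P.g ≤ P.r0 * (z + w) i ∧ P.r0 * (z + w) i + P.r0 + P.g ≤ n := fun i => by
    have h1 := h i
    have h3 := P.mul_ball hw i
    have h4 := P.RQ_eq
    have h5 := P.nQ_eq
    simp only [cQ] at h1
    rw [Pi.add_apply, mul_add]
    omega
  refine mem_filter.2 ⟨mem_hatB.2 fun i => ?_, fun i => ?_⟩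
  · have h1 := key i
    have h2 := P.r0_pos
    have h4 : 0 ≤ (z + w) i := by
      by_contra h5
      have : (P.r0 : ℤ) * (z + w) i < 0 := mul_neg_of_pos_of_neg h2 (by omega)
      omega
    have h5 : (z + w) i ≤ P.r0 * (z + w) i := le_mul_of_one_le_left h4 (by omega)
    omega
  · have h1 := key i
    have h6 := P.nL_eq
    simp only [cL]
    omega

lemma ZL_sub (n : ℕ) : P.ZL n ⊆ hatB D n := filter_subset _ _
lemma ZQ_sub (n : ℕ) : P.ZQ n ⊆ hatB D n := filter_subset _ _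
lemma cubeIn_of_ZL {n : ℕ} {z : V D} (h : z ∈ P.ZL n) : CubeIn (P.cL z) P.nL n := (mem_filter.1 h).2

lemma badQ_iff (b : ℝ) (u : ℤ) (η : Dis D) (w : V D) :
    P.BadQ b u η w ↔ P.badL b u (tr (P.cL w + cv P.RQ) η) := by
  rw [BadQ, Bad, tr_tr]

lemma badQ_tr (b : ℝ) (u : ℤ) (ξ : Dis D) (z w : V D) :
    P.BadQ b u (tr (P.cQ z) ξ) w ↔ P.Bad b u ξ (z + w) := by
  rw [badQ_iff, tr_tr, Bad]
  have : P.cL w + cv P.RQ + P.cQ z = P.cL (z + w) := by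
    funext i; simp only [Pi.add_apply, cL, cQ, cv_apply]; ring
  rw [this]

lemma badQ_tr_eq (b : ℝ) (u : ℤ) (ξ : Dis D) (z : V D) :
    P.BadQ b u (tr (P.cQ z) ξ) = fun w => P.Bad b u ξ (z + w) :=
  funext fun w => propext (P.badQ_tr b u ξ z w)

lemma mark_mem : (cv (P.g + P.rc - 1) : V D) ∈ hatB D P.nL := mem_hatB.2 fun i => by
  have := P.nL_eq; have := P.r0_eq; have := P.rc_eq; simp only [cv_apply]; omega

lemma badL_congr {η η' : Dis D} (h : Agree P.nL η η') (b : ℝ) (u : ℤ) :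
    P.badL b u η ↔ P.badL b u η' := by
  unfold badL Mark
  rw [h.ViolA, h.ViolA, h _ P.mark_mem]

lemma badQ_congr {η η' : Dis D} (h : Agree P.nQ η η') (b : ℝ) (u : ℤ) {w : V D}
    (hw : w ∈ ball D P.Lam) : P.BadQ b u η w ↔ P.BadQ b u η' w := by
  rw [badQ_iff, badQ_iff]
  exact P.badL_congr (h.tr (P.cubeIn_L hw)) b u

lemma Kl_congr {η η' : Dis D} (h : Agree P.nQ η η') (b : ℝ) (u : ℤ) :
    P.Kl b u η = P.Kl b u η' := clus_congr fun _ hw => P.badQ_congr h b u hw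

lemma Root_congr {η η' : Dis D} (h : Agree P.nQ η η') (b : ℝ) (u : ℤ) :
    P.Root b u η ↔ P.Root b u η' := isRoot_congr fun _ hw => P.badQ_congr h b u hw

lemma Y_congr {η η' : Dis D} (h : Agree P.nQ η η') (b : ℝ) (u : ℤ) : P.Y b u η = P.Y b u η' := by
  have hc : P.core b u η = P.core b u η' := by unfold core; rw [P.Kl_congr h]
  have hA : P.VA b u η = P.VA b u η' := by unfold VA; rw [hc, h.Phi, h.GA]
  have hC : P.VC b u η = P.VC b u η' := by unfold VC; rw [hc, h.Phi, h.GA]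
  have hD : P.VD b u η = P.VD b u η' := by unfold VD; rw [hc, h.Phi, h.GA]
  have hI : P.Ind b u η ↔ P.Ind b u η' := by unfold Ind; rw [P.Root_congr h, hC, hD]
  unfold Y
  rw [hA, hD]
  exact if_congr hI rfl rfl

lemma RareQ_congr {η η' : Dis D} (h : Agree P.nQ η η') (a : ℝ) :
    P.RareQ a η ↔ P.RareQ a η' := by
  unfold RareQ
  refine exists_congr fun c => and_congr_right fun _ => and_congr_right fun _ => or_congr ?_ ?_
  · simp only [(h.shc c).GoodAt]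
  · exact exists_congr fun w => and_congr_right fun hw => by
      simp only [((h.tr (P.cubeIn_L hw)).shc c).GoodAt]

lemma LG0_congr {η η' : Dis D} (h : Agree P.nQ η η') (l u : ℤ) (x : V D) :
    P.LG0 l u η x ↔ P.LG0 l u η' x := by
  unfold LG0; rw [h.IsMin]

lemma Rpl_sub : P.Rpl ⊆ inB D P.nQ := fun x hx => mem_inB.2 fun i => by
  have := mem_cube.1 hx i
  have := P.nQ_eq; have := P.r0_eq; have := P.rc_eq; have := P.RQ_eq
  omega

lemma card_Rpl : P.Rpl.card = (2 * P.r00 + 1) ^ D := by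
  rw [← card_cube ((P.RQ : ℤ) + P.rc - P.r00) (2 * P.r00 + 1), Rpl]
  congr 2
  push_cast
  ring

/-- The small cubes of the other blocks avoid the planted region. -/
lemma L_avoid {w x : V D} (hw : w ≠ 0) (hx : x - (P.cL w + cv P.RQ) ∈ hatB D P.nL) :
    x ∉ P.Rpl := by
  intro h
  obtain ⟨i, hi⟩ := Function.ne_iff.1 hw
  have h1 := mem_hatB.1 hx i
  have h2 := mem_cube.1 h i
  have h3 := P.r0_pos
  have h4 := P.nL_eq; have h5 := P.r0_eq; have h6 := P.rc_eq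
  simp only [Pi.sub_apply, Pi.add_apply, cL, cv_apply, Pi.zero_apply] at h1 hi
  rcases lt_or_gt_of_ne hi with h7 | h7
  · have : (P.r0 : ℤ) * w i ≤ P.r0 * (-1) := mul_le_mul_of_nonneg_left (by omega) h3.le
    omega
  · have : (P.r0 : ℤ) * 1 ≤ P.r0 * w i := mul_le_mul_of_nonneg_left (by omega) h3.le
    omega

lemma NR.mono {a b : ℝ} (hb : 0 ≤ b) {n n' N R : ℕ} (h : P.NR a b n N R) (hn : n' ≤ n) :
    P.NR a b n' N R := by
  refine ⟨h.1, lt_of_le_of_lt ?_ h.2.1, h.2.2⟩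
  have : (n' : ℝ) ≤ n := by exact_mod_cast hn
  gcongr

@[simp] lemma swap_swap : P.swap.swap = P := rfl
lemma swap_us : P.swap.us = -P.us := by simp [us, swap]

variable {P} {a b : ℝ}

lemma Ok.swap (h : P.Ok a b) : P.swap.Ok a b :=
  ⟨h.hD, h.ha, h.hab, h.hb, h.h2, h.h1, h.h4, h.h3, h.h6, h.h5, h.hh, h.hmg, h.hmu, h.hk1, h.hl0,
    h.hlb, h.hMP1, h.hMP2, h.hB0, h.hB1⟩

lemma Num.swap {p C₁ η : ℝ} {n m₀ : ℕ} (h : P.Num a b p C₁ η n m₀) :
    P.swap.Num a b p C₁ η n m₀ :=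
  ⟨h.n0, h.n1, h.n2, h.n3, h.n4, h.n5, h.n6, h.n7, h.n8, h.n9, h.n10, h.n11⟩

lemma NR.swap {n N R : ℕ} (h : P.NR a b n N R) : P.swap.NR a b n N R := h

lemma Ok.b_pos (h : P.Ok a b) : 0 < b := h.ha.trans h.hab
lemma Ok.hb2 (h : P.Ok a b) : 2 * b < a * D := by have := h.b_pos; have := h.hb; linarith
lemma Ok.one_le_h0 (h : P.Ok a b) : 1 ≤ P.h0 :=
  le_trans (Nat.one_le_pow _ _ (by have := h.hD; omega)) h.hh
lemma Ok.one_le_mg (h : P.Ok a b) : 1 ≤ P.mg := h.one_le_h0.trans h.hmg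
lemma Ok.cube_le_mg (h : P.Ok a b) : D ^ 3 ≤ P.mg := h.hh.trans h.hmg
lemma Ok.one_le_M (h : P.Ok a b) : 1 ≤ P.M :=
  Nat.mul_pos (by have := h.hD; omega) (by have := h.one_le_mg; have := h.hmu; omega)
lemma Ok.one_le_k0 (h : P.Ok a b) : 1 ≤ P.k0 := Nat.mul_pos (by positivity) h.hk1
lemma Ok.one_le_MP (h : P.Ok a b) : 1 ≤ P.MP :=
  le_trans (Nat.mul_pos (by have := h.hD; omega) h.one_le_h0) h.hMP2
lemma Ok.one_le_g (h : P.Ok a b) : 1 ≤ P.g :=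
  Nat.mul_pos (by norm_num) (Nat.mul_pos (by have := h.hD; omega) h.one_le_mg)
lemma Ok.b_le_B0 (h : P.Ok a b) : b ≤ P.B0 b := by
  have h1 : (1 : ℝ) ≤ P.k0 := by exact_mod_cast h.one_le_k0
  have h2 : (1 : ℝ) ≤ (P.r0 : ℝ) ^ D :=
    one_le_pow₀ (by exact_mod_cast le_trans (by norm_num) P.r0_ge)
  have h3 : b ≤ b * (2 + 2 * D * P.mg) :=
    le_mul_of_one_le_right h.b_pos.le (by
      have : (0 : ℝ) ≤ 2 * D * P.mg := by positivity
      linarith)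
  have h4 : (1 : ℝ) ≤ P.k0 * P.r0 ^ D := one_le_mul_of_one_le_of_one_le h1 h2
  unfold B0
  exact h3.trans (le_mul_of_one_le_left (h.b_pos.le.trans h3) h4)
lemma Ok.B0_pos (h : P.Ok a b) : 0 < P.B0 b := h.b_pos.trans_le h.b_le_B0
lemma Ok.B1_pos (h : P.Ok a b) : 0 < P.B1 b := by
  have := h.B0_pos; have := h.b_pos
  unfold B1; positivity
lemma Ok.blkL_sub_inB (h : P.Ok a b) : P.blkL ⊆ inB D P.nL := fun x hx => mem_inB.2 fun i => by
  have := mem_cube.1 hx i; have := P.nL_eq; have := h.one_le_g; omega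
lemma Ok.ell_le (h : P.Ok a b) : P.ell a b ≤ P.lb := by
  refine Nat.floor_le_of_le ?_
  rw [div_le_iff₀ (sub_pos.2 h.hab)]
  refine le_trans ?_ h.hlb
  have h1 : (P.K2 : ℝ) ≤ P.K := by exact_mod_cast h.h4
  have := h.b_pos
  gcongr
lemma Ok.ell_spec (h : P.Ok a b) : P.ell a b * (b - a) ≤ 2 * D * b * (P.K2 + 1) ∧
    2 * D * b * (P.K2 + 1) < (P.ell a b + 1) * (b - a) := by
  have h0 := sub_pos.2 h.hab
  have := h.b_pos
  constructor
  · rw [← le_div_iff₀ h0]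
    exact Nat.floor_le (by positivity)
  · rw [← div_lt_iff₀ h0]
    exact Nat.lt_floor_add_one _

/-- Bounds for the local cost. -/
lemma Ok.V_nonneg (h : P.Ok a b) {η : Dis D} (hη : TwoV a b η) (u : ℤ) :
    0 ≤ P.VA b u η ∧ 0 ≤ P.VB b u η ∧ 0 ≤ P.VC b u η ∧ 0 ≤ P.VD b u η := by
  refine ⟨sub_nonneg.2 ?_, sub_nonneg.2 ?_, sub_nonneg.2 ?_, sub_nonneg.2 ?_⟩ <;>
    exact GA_le_Phi h.ha.le h.hab.le hη (P.core_sub b u η) (by omega) _

lemma Ok.Y_bounds (h : P.Ok a b) {η : Dis D} (hη : TwoV a b η) (u : ℤ) :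
    -P.B0 b ≤ P.Y b u η ∧ P.Y b u η ≤ 3 * P.B0 b := by
  have h0 := h.B0_pos
  obtain ⟨h1, -, -, h4⟩ := h.V_nonneg hη u
  unfold Y
  split_ifs with hI
  · have h5 := hI.2.1
    have h6 : 0 ≤ min (P.VA b u η) (3 * P.B0 b) := le_min h1 (by linarith)
    have h7 := min_le_right (P.VA b u η) (3 * P.B0 b)
    constructor <;> linarith
  · constructor <;> linarith

lemma Ok.Y_zero (h : P.Ok a b) (η : Dis D) : P.Y b 0 η = 0 := by
  have h0 := h.B0_pos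
  unfold Y
  split_ifs with hI
  · have h5 : P.VA b 0 η ≤ P.B0 b := hI.2.1
    rw [min_eq_left (by linarith)]
    exact sub_self _
  · rfl

lemma ind_of_Y_ne {u : ℤ} {η : Dis D} (h : P.Y b u η ≠ 0) : P.Ind b u η := by
  by_contra h1
  exact h (if_neg h1)

end Par

end Pool.Agent.P.MP_67bca4_pr
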