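import Pool.Agent.P.MP_67bca4_pr.AH.Asm
import Pool.Agent.P.MP_67bca4_pr.AH.R.Tail
import Pool.Agent.P.MP_67bca4_pr.AH.R.CountFn
import Pool.Agent.P.MP_67bca4_pr.AH.R.CountLev
import Pool.Agent.P.MP_67bca4_pr.AH.R.Chain
import Pool.Agent.P.MP_67bca4_pr.AH.R.Lay
import Pool.Agent.P.MP_67bca4_pr.AH.R.Step
import Pool.Agent.P.MP_67bca4_pr.AH.R.Flip
import Pool.Agent.P.MP_67bca4_pr.AH.R.Debig
import Pool.Agent.P.MP_67bca4_pr.AH.R.LemA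
import Pool.Agent.P.MP_67bca4_pr.AH.R.MaxFam
import Pool.Agent.P.MP_67bca4_pr.AH.R.Link
import Pool.Agent.P.MP_67bca4_pr.AH.R.Exch
import Pool.Agent.P.MP_67bca4_pr.AH.R.Mv
import Pool.Agent.P.MP_67bca4_pr.AH.R.Sep
import Pool.Agent.P.MP_67bca4_pr.AH.R.Exc
import Pool.Agent.P.MP_67bca4_pr.AH.R.Gain
import Pool.Agent.P.MP_67bca4_pr.AH.R.Clip
import Pool.Agent.P.MP_67bca4_pr.AH.R.Trans
import Pool.Agent.P.MP_67bca4_pr.AH.R.Iso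
import Pool.Agent.P.MP_67bca4_pr.AH.R.Flatten
import Pool.Agent.P.MP_67bca4_pr.AH.R.Clus
import Pool.Agent.P.MP_67bca4_pr.AH.R.Marg
import Pool.Agent.P.MP_67bca4_pr.AH.R.Indep
import Pool.Agent.P.MP_67bca4_pr.AH.R.Colour
import Pool.Agent.P.MP_67bca4_pr.AH.R.Ineq
import Pool.Agent.P.MP_67bca4_pr.AH.R.Up
import Pool.Agent.P.MP_67bca4_pr.AH.R.Low
import Pool.Agent.P.MP_67bca4_pr.AH.R.Cover
import Pool.Agent.P.MP_67bca4_pr.AH.R.CountP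
import Pool.Agent.P.MP_67bca4_pr.AH.R.Det
import Pool.Agent.P.MP_67bca4_pr.AH.R.NiceP
import Pool.Agent.P.MP_67bca4_pr.AH.R.Pure
import Pool.Agent.P.MP_67bca4_pr.AH.R.Data
import Pool.Agent.P.MP_67bca4_pr.AH.R.E2
import Pool.Agent.P.MP_67bca4_pr.AH.R.Ysym
import Pool.Agent.P.MP_67bca4_pr.AH.R.PlantE
import Pool.Agent.P.MP_67bca4_pr.AH.R.Plant0
import Pool.Agent.P.MP_67bca4_pr.AH.R.Plant1
import Pool.Agent.P.MP_67bca4_pr.AH.R.PBad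
import Pool.Agent.P.MP_67bca4_pr.AH.R.PSp
import Pool.Agent.P.MP_67bca4_pr.AH.R.PPlant
import Pool.Agent.P.MP_67bca4_pr.AH.R.Mean
import Pool.Agent.P.MP_67bca4_pr.AH.R.Ytail
import Pool.Agent.P.MP_67bca4_pr.AH.R.Ychain
import Pool.Agent.P.MP_67bca4_pr.AH.R.Glob
import Pool.Agent.P.MP_67bca4_pr.AH.R.LG
import Pool.Agent.P.MP_67bca4_pr.AH.R.Mid
import Pool.Agent.P.MP_67bca4_pr.AH.R.LowH
import Pool.Agent.P.MP_67bca4_pr.AH.R.ParN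
import Pool.Agent.P.MP_67bca4_pr.AH.R.ParK

/-!
All lemmas put together: the variance bound for all heights in the finite model.
-/

namespace Pool.Agent.P.MP_67bca4_pr

theorem c_CountLev : StCountLev := pf_CountLev pf_CountFn
theorem c_Tail : StTail := pf_Tail c_CountLev pf_Chain pf_Lay pf_Step pf_NumRoot
theorem c_Debig : StDebig := pf_Debig pf_Flip
theorem c_Sep : StSep := pf_Sep (pf_Link pf_Attach) pf_Exch pf_Mv
theorem c_MGlue : StMGlue := pf_MGlue pf_Exch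
theorem c_Gain : StGain := pf_Gain pf_Exc
theorem c_Flatten : StFlatten := pf_Flatten pf_Iso
theorem c_Local : StLocal := pf_Local pf_Marg
theorem c_E2 : StE2 := pf_E2 c_Sep c_Gain pf_Mv
theorem c_Gp : StGp := pf_Gp c_E2 c_Gain pf_Clip pf_Shift pf_Clus1
theorem c_Ysym : StYsym := pf_Ysym pf_Mir pf_Four
theorem c_Plant : StPlant :=
  pf_Plant (pf_Plant0 pf_PlantE c_Sep c_Gain c_Debig c_Flatten)
    (pf_Plant1 pf_PlantE c_Sep c_Gain c_Flatten pf_Bump pf_Shift) pf_Four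
theorem c_PBad : StPBad := pf_PBad pf_Shift c_Gain pf_Pat c_Local
theorem c_PRare : StPRare := pf_PRare c_Local
theorem c_PSp : StPSp := pf_PSp c_PBad c_PRare (pf_Dense pf_Indep)
theorem c_Mean0 : StMean0 := pf_Mean0 c_Ysym
theorem c_Mean : StMean :=
  pf_Mean c_Mean0
    (pf_Mean1 c_Ysym c_Plant c_Gp (pf_PPlant c_PBad pf_Pat pf_Indep) c_PRare pf_Clus4)
theorem c_Ychain : StYchain :=
  pf_Ychain c_CountLev (pf_Ytail (pf_Colour pf_Indep) c_Local) pf_NumY pf_Union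
theorem c_Pure : StPure := pf_Pure c_Sep
theorem c_SepZ : StSepZ := pf_SepZ c_Pure (pf_Clus2 pf_Clus1)
theorem c_Ineq : StIneq :=
  pf_Ineq (pf_Data (pf_BigW pf_Flip) pf_MaxFam pf_LemA) pf_Chain pf_Ylow
    (pf_Low c_Pure c_SepZ c_Sep c_MGlue c_Gain pf_Shift pf_Mv)
    (pf_Up c_Pure c_SepZ c_Sep c_MGlue c_Gain c_Debig pf_Clip c_Gp pf_Mv)
    (pf_Cover c_E2 c_Pure (pf_Clus3 pf_Clus1) c_Gain) (pf_CountP pf_Imp pf_Net) c_Gp c_Pure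
theorem c_Det : StDet := pf_Det c_Ineq (pf_NiceP c_Pure c_Sep pf_Exch) pf_Imp pf_Supp c_Pure
theorem c_Glob : StGlob := pf_Glob c_Det pf_BL c_PSp c_Mean0 c_Mean c_Ychain pf_Union
theorem c_Mid : StMid := pf_Mid (pf_LG c_Gain pf_Pert pf_Marg) pf_Sand

theorem fin_var_all {ρ : ℝ} (hρ : 1 ≤ ρ) :
    ∃ D₀ : ℕ, ∀ D ≥ D₀, ∀ a b : ℝ, 0 < a → a < b → b ≤ ρ * a → ∀ p : ℝ, 0 < p → p < 1 →
      ∃ c : ℝ, 0 < c ∧ ∀ n H : ℕ, 1 ≤ n → 1 ≤ H → ∃ N₀ : ℕ, ∀ (N : ℕ) [NeZero N], N₀ ≤ N →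
        c * (n : ℝ) ^ D ≤ Vr p fun ω : Ix D n N → Bool => GEc n (dis a b ω) (Slab n H) :=
  fin_all c_Tail c_Glob c_Mid pf_LowH pf_One pf_ParN pf_ParK pf_Grow hρ

end Pool.Agent.P.MP_67bca4_pr
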