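import Pool.Agent.P.MP_67bca4_pr.AH.S2
import Pool.Agent.P.MP_67bca4_pr.Fin

/-!
The variance bound for all heights in the finite model, from the main lemmas.
-/

namespace Pool.Agent.P.MP_67bca4_pr

theorem fin_all (hT : StTail) (hG : StGlob) (hM : StMid) (hL : StLowH) (hO : StOne)
    (hN : StParN) (hK : StParK) (hW : StGrow) {ρ : ℝ} (hρ : 1 ≤ ρ) :
    ∃ D₀ : ℕ, ∀ D ≥ D₀, ∀ a b : ℝ, 0 < a → a < b → b ≤ ρ * a → ∀ p : ℝ, 0 < p → p < 1 →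
      ∃ c : ℝ, 0 < c ∧ ∀ n H : ℕ, 1 ≤ n → 1 ≤ H → ∃ N₀ : ℕ, ∀ (N : ℕ) [NeZero N], N₀ ≤ N →
        c * (n : ℝ) ^ D ≤ Vr p fun ω : Ix D n N → Bool => GEc n (dis a b ω) (Slab n H) := by
  obtain ⟨D₁, C₁, h100, h4, hC₁, hT⟩ := hT hρ
  obtain ⟨D₂, hF⟩ := fin_var hρ
  refine ⟨max D₁ D₂, fun D hD a b ha hab hb p p0 p1 => ?_⟩
  obtain ⟨hD1, hD2⟩ := max_le_iff.1 hD
  obtain ⟨C, hF⟩ := hF D hD2
  obtain ⟨tM, t1⟩ := hT D hD1 a b ha hab hb p p0.le p1.le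
  have hD' : 100 ≤ D := h100.trans hD1
  have hb4 : 4 * b ≤ a * D := by
    have : (D₁ : ℝ) ≤ D := by exact_mod_cast hD1
    nlinarith
  have hba : 0 < b - a := sub_pos.2 hab
  have h1p : 0 < 1 - p := sub_pos.2 p1
  have h2D : (1 : ℝ) ≤ 2 ^ D := one_le_pow₀ one_le_two
  have η0 : 0 < p ^ 2 / (96 * 2 ^ D) := by positivity
  have η1 : p ^ 2 / (96 * 2 ^ D) ≤ 1 := by
    rw [div_le_one (by positivity)]; nlinarith
  obtain ⟨c', hN⟩ := hN hD' η0 η1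
  obtain ⟨e, K₀, hK⟩ := hK hD' ha hab hb4 p0 p1 hC₁ η0 η1
  obtain ⟨H₀, hW⟩ := hW C c' e
  obtain ⟨H₁, hH₁⟩ : ∃ H₁, H₁ = H₀ + 2 * K₀ + 2 := ⟨_, rfl⟩
  have hH1 : (0 : ℝ) < H₁ := by exact_mod_cast (by omega : 0 < H₁)
  obtain ⟨c₁, hc₁⟩ : ∃ c₁, c₁ = p * (1 - p) * (p * (b - a) / 4) ^ 2 := ⟨_, rfl⟩
  obtain ⟨c₂, hc₂⟩ : ∃ c₂, c₂ = p * (1 - p) * ((b - a) * p ^ H₁ / H₁) ^ 2 := ⟨_, rfl⟩
  have c1p : 0 < c₁ := by rw [hc₁]; positivity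
  have c2p : 0 < c₂ := by rw [hc₂]; positivity
  have c0p : 0 < min (c₁ / 2) c₂ := lt_min (by positivity) c2p
  have m1 := min_le_left (c₁ / 2) c₂
  have m2 := min_le_right (c₁ / 2) c₂
  refine ⟨min (c₁ / 2) c₂ / 2 ^ D, by positivity, fun n H hn hH => ?_⟩
  rcases eq_or_lt_of_le hn with rfl | hn2
  · refine ⟨H + 1, fun N _ hN => le_trans ?_ (hO (by omega) hH hN ha hab p0.le p1.le)⟩
    rw [← hc₁, Nat.cast_one, one_pow, mul_one]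
    have := div_le_self c0p.le h2D
    linarith
  have hn' : (2 : ℝ) ≤ n := by exact_mod_cast hn2
  have hpow : (n : ℝ) ^ D / 2 ^ D ≤ ((n : ℝ) - 1) ^ D := by
    rw [← div_pow]; gcongr; linarith
  have hp0 : 0 ≤ ((n : ℝ) - 1) ^ D := le_trans (by positivity) hpow
  suffices h : ∃ N₀ : ℕ, ∀ (N : ℕ) [NeZero N], N₀ ≤ N → min (c₁ / 2) c₂ * ((n : ℝ) - 1) ^ D ≤
      Vr p fun ω : Ix D n N → Bool => GEc n (dis a b ω) (Slab n H) by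
    obtain ⟨N₀, h⟩ := h
    refine ⟨N₀, fun N _ hN => le_trans ?_ (h N hN)⟩
    rw [div_mul_eq_mul_div, mul_div_assoc]
    gcongr
  by_cases hlo : H < H₁
  · refine ⟨H + 1, fun N _ hN => le_trans ?_ (hL hn hH hN ha hab p0.le p1.le)⟩
    refine mul_le_mul_of_nonneg_right (m2.trans ?_) hp0
    have h1 : (0 : ℝ) < H := by exact_mod_cast hH
    have h2 : (H : ℝ) ≤ H₁ := by exact_mod_cast hlo.le
    have h3 : p ^ H₁ ≤ p ^ H := pow_le_pow_of_le_one p0.le p1.le hlo.le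
    rw [hc₂]
    gcongr
  by_cases hhi : C * Real.log n ^ 2 ≤ H
  · obtain ⟨-, N₀, h⟩ := hF a b ha hab hb p p0.le p1.le n H hn2 hhi
    refine ⟨N₀, fun N _ hN => le_trans ?_ (h N hN)⟩
    rw [← hc₁]
    exact mul_le_mul_of_nonneg_right (by linarith) hp0
  obtain ⟨P, k1, k2, k3, hok, hnk, hsz⟩ := hK (H / 2) (by omega) ((H - 1) / 2) (H / 2) (by omega)
    le_rfl (by omega) (by omega)
  have hg := hW n H (by omega) hn2 (not_le.1 hhi)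
  obtain ⟨m₀, hnum⟩ := hN P ha (ha.trans hab) p0 p1 (by linarith) hnk n
    ((Nat.mul_le_mul_left _ (hsz.trans (Nat.pow_le_pow_left (Nat.div_le_self _ _) _))).trans hg)
  obtain ⟨R, hR⟩ := exists_nat_gt (b * ((n : ℝ) + 1) ^ D / a)
  rw [div_lt_iff₀ ha, mul_comm (R : ℝ)] at hR
  refine ⟨4 * R + 4 * P.K + H + 6, fun N _ hN => ?_⟩
  have hNR : P.NR a b n N R := ⟨by omega, hR, by omega⟩
  have hη : 6 * (p ^ 2 / (96 * 2 ^ D)) * (n : ℝ) ^ D ≤ p ^ 2 / 16 * ((n : ℝ) - 1) ^ D := by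
    calc _ = p ^ 2 / 16 * ((n : ℝ) ^ D / 2 ^ D) := by field_simp; ring
      _ ≤ _ := by gcongr
  have g1 := (hG hok p0 p1 η0 tM t1 hNR hnum).trans hη
  have g2 := (hG hok.swap p0 p1 η0 tM t1 hNR.swap hnum.swap).trans hη
  have h6 : 2 * (P.nQ : ℝ) ^ D * Real.exp (-√(P.h0 : ℝ)) ≤ 1 / 32 := by
    have h := hnum.n6
    have : 0 ≤ (2 * (P.Lam : ℝ) + 1) ^ D * P.rhoB p := by unfold Par.rhoB; positivity
    linarith
  refine le_trans ?_ (hM hok p0 p1 t1 hNR hn (by omega) k1 k2 h6 g1 g2)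
  rw [← hc₁]
  calc _ ≤ c₁ / 2 * ((n : ℝ) - 1) ^ D := mul_le_mul_of_nonneg_right m1 hp0
    _ = _ := by ring

end Pool.Agent.P.MP_67bca4_pr
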