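import Pool.Agent.P.MP_67bca4_pr.Fin

/-!
Definitions for the extension to all heights, part one: tours with several roots, translations,
gluing, windows, reflections, clusters, dependence on a set of bits.
-/

namespace Pool.Agent.P.MP_67bca4_pr

open Finset
open scoped Classical

noncomputable section

variable {D : ℕ}

/-! ### Tours with several roots -/

/-- At most `j` walks, started at the points `φ r` with distinct `r ∈ Ω`, of total cost at most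
`L`, visit all of `P`. -/
def MTour (c : V D → ℝ) (φ : V D → V D) (Ω : Finset (V D)) (j : ℕ) (P : Finset (V D)) (L : ℝ) :
    Prop :=
  ∃ (R : Finset (V D)) (Q : V D → Finset (V D)) (ℓ : V D → ℝ), R ⊆ Ω ∧ R.card ≤ j ∧
    (∀ r ∈ R, Tour c (φ r) (Q r) (ℓ r)) ∧ ∑ r ∈ R, ℓ r ≤ L ∧ ∀ p ∈ P, ∃ r ∈ R, p ∈ Q r

/-- Admissible shifts of size `m` with contour set `J`, roots in `Ω`, at most `m / μ` roots. -/
def AdmJ (n : ℕ) (Ω : Finset (V D)) (μ : ℕ) (s : Fn D) (m : ℕ) (J : Finset (Ed D)) : Prop :=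
  Supp n s ∧ TV s ≤ m ∧ jumps s ⊆ J ∧ SqCl J ∧ Big J ∧ J.card ≤ m ∧
    ∃ j : ℕ, j * μ ≤ m ∧ MTour l1 id Ω j (bases J) (50 * D * m)

def AdmM (n : ℕ) (Ω : Finset (V D)) (μ : ℕ) (s : Fn D) (m : ℕ) : Prop := ∃ J, AdmJ n Ω μ s m J

/-- The coarse-grained shifts at level `l`. -/
def LevM (n : ℕ) (Ω : Finset (V D)) (μ m l : ℕ) (t : Fn D) : Prop :=
  (l = 0 → AdmM n Ω μ t m) ∧
  (l ≠ 0 → ∃ (f : Fn D) (j : ℕ), (∀ x, t x = f (dn l x)) ∧ 2 ^ (l * (D - 2)) * TV f ≤ m ∧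
    j * μ ≤ m ∧ MTour l1 (dn l) Ω j (bases (jumps f)) (58 * D * m))

/-- What the layering bound needs to know about two consecutive levels (`q = 2 ^ l`). -/
def PackM (n : ℕ) (Ω : Finset (V D)) (μ m q : ℕ) (t : Fn D) (Y P : Finset (V D)) : Prop :=
  Supp n t ∧ TV t ≤ q * m ∧ Y ⊆ inB D n ∧ Y.card ≤ 3 * q ^ 2 * m ∧
  (∃ j : ℕ, j * μ ≤ m ∧ MTour l1 id Ω j P (50 * D * m)) ∧
  (∀ y ∈ Y, ∃ p ∈ P, l1 (y - p) ≤ 7 * D * q) ∧
  ∃ J : Finset (Ed D), jumps t ⊆ J ∧ SqCl J ∧ Big J ∧ J.card ≤ q * m ∧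
    ∀ e ∈ J, ∃ p ∈ P, l1 (e.1 - p) ≤ 5 * D * q

/-- A shift with several roots whose energy gain is at least `a m / 4`. -/
def GoodM (n : ℕ) (a : ℝ) (ξ : Dis D) (Ω : Finset (V D)) (μ : ℕ) (s : Fn D) (m : ℕ) : Prop :=
  AdmM n Ω μ s m ∧ GE n (shift s ξ) + a * m / 4 ≤ GE n ξ

/-- A good shift of size at least `m₁` rooted at `y`. -/
def GoodAt (n : ℕ) (a : ℝ) (ξ : Dis D) (y : V D) (m₁ : ℕ) : Prop :=
  ∃ s m, m₁ ≤ m ∧ GoodM n a ξ {y} 0 s m

/-- A shift rooted at `y` that gains `a X` with `X ≥ X₀`. -/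
def Gain (n : ℕ) (a : ℝ) (ξ : Dis D) (y : V D) (X₀ : ℕ) : Prop :=
  ∃ (s : Fn D) (X : ℕ), X₀ ≤ X ∧ AdmM n {y} 0 s (2 * X) ∧ GE n (shift s ξ) + a * X ≤ GE n ξ

/-- The bits of the columns in `O` are set to `true`. -/
def ovr {n N : ℕ} (O : Finset (V D)) (ω : Ix D n N → Bool) : Ix D n N → Bool :=
  fun i => ω i || decide (i.1.1 ∈ O)

/-- The tail bound for good shifts with several roots. -/
def TailM (D : ℕ) (C₁ a b p : ℝ) : Prop :=
  ∀ (n N R : ℕ) [NeZero N], 4 * R < N → b * ((n : ℝ) + 1) ^ D < a * R →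
    ∀ (O Ω : Finset (V D)) (μ m₁ : ℕ), D ^ 3 ≤ m₁ →
      C₁ * Ω.card * Real.exp (-(√(μ : ℝ) / C₁)) ≤ m₁ →
      Pr p (fun ω : Ix D n N → Bool =>
        ∃ s m, m₁ ≤ m ∧ GoodM n a (dis a b (ovr O ω)) Ω μ s m) ≤ Real.exp (-√(m₁ : ℝ))

/-- The tail bound for good shifts with one root. -/
def Tail1 (D : ℕ) (a b p : ℝ) : Prop :=
  ∀ (n N R : ℕ) [NeZero N], 4 * R < N → b * ((n : ℝ) + 1) ^ D < a * R →
    ∀ (O : Finset (V D)) (y : V D) (m₁ : ℕ), D ^ 3 ≤ m₁ →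
      Pr p (fun ω : Ix D n N → Bool => GoodAt n a (dis a b (ovr O ω)) y m₁) ≤
        Real.exp (-√(m₁ : ℝ))

/-! ### Adjacency, reachability, gluing, heavy families -/

def Adj (x y : V D) : Prop := ∃ i, y = x + ee i ∨ x = y + ee i

/-- Reachable from `P` by steps that end in `Z`. -/
def Reach (P Z : V D → Prop) (x : V D) : Prop :=
  ∃ p, P p ∧ Relation.ReflTransGen (fun v w => Adj v w ∧ Z w) p x

/-- `F` on `A` and `U` elsewhere. -/
def glue (A : V D → Prop) (F U : Conf D) : Conf D := fun x => if A x then F x else U x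

/-- A closed family of at least `M` contour edges with a short tour from `x`. -/
def Heavy (n : ℕ) (U : Conf D) (x : V D) (M : ℕ) : Prop :=
  ∃ C, Closed (Jst n U) C ∧ M ≤ C.card ∧ Tour l1 x (bases C) (25 * C.card)

/-! ### Translations and cubes -/

/-- The disorder seen from `c`. -/
def tr (c : V D) (ξ : Dis D) : Dis D := fun x => ξ (x + c)
/-- The configuration moved by `c`. -/
def mv (c : V D) (F : Conf D) : Conf D := fun x => F (x - c)
/-- The cube `c + [0, n']^D` lies in `[0, n]^D`. -/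
def CubeIn (c : V D) (n' n : ℕ) : Prop := ∀ i, 0 ≤ c i ∧ c i + n' ≤ n
/-- The constant vector. -/
def cv (k : ℤ) : V D := fun _ => k
/-- The cube `[-ρ, ρ]^D`. -/
def ball (D ρ : ℕ) : Finset (V D) := Fintype.piFinset fun _ => Finset.Icc (-(ρ : ℤ)) ρ
/-- The cube `[α, β]^D`. -/
def cube (D : ℕ) (α β : ℤ) : Finset (V D) := Fintype.piFinset fun _ => Finset.Icc α β
/-- Two disorders agree on the columns of the closed box. -/
def Agree (n : ℕ) (ξ ξ' : Dis D) : Prop := ∀ x ∈ hatB D n, ξ x = ξ' x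
/-- The constant shift. -/
def shc (c : ℤ) (ξ : Dis D) : Dis D := shift (fun _ => c) ξ

/-! ### Windows and anchors -/

def WinCol (l h : ℤ) (S : Col) : Prop := (∀ k, k ≤ l → k ∈ S.s) ∧ ∀ k ∈ S.s, k ≤ h
def WinOn (A : Finset (V D)) (l h : ℤ) (U : Conf D) : Prop := ∀ x ∈ A, WinCol l h (U x)
/-- Flat at height `c` outside the interior box. -/
def CfgA (n : ℕ) (c : ℤ) (U : Conf D) : Prop := ∀ x, x ∉ inB D n → U x = flat c
/-- The least energy with anchor `c` and window `[l, h]` on `A`. -/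
def Phi (n : ℕ) (A : Finset (V D)) (l h c : ℤ) (ξ : Dis D) : ℝ :=
  GEc n ξ fun U => CfgA n c U ∧ WinOn A l h U
/-- The least energy with anchor `c`. -/
def GA (n : ℕ) (c : ℤ) (ξ : Dis D) : ℝ := GEc n ξ (CfgA n c)
/-- Some free minimiser with anchor `c` leaves the window on `A`. -/
def ViolA (n : ℕ) (A : Finset (V D)) (l h c : ℤ) (ξ : Dis D) : Prop :=
  ∃ U, IsMinC n ξ (CfgA n c) U ∧ ¬WinOn A l h U
/-- The class of the slab problem with anchor zero. -/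
def WCl (n : ℕ) (l h : ℤ) (U : Conf D) : Prop := Cfg n U ∧ Win l h U

/-! ### Reflections -/

/-- The reflected column. -/
def mir (v : ℤ) (S : Col) : Col :=
  ⟨{k | v + 1 - k ∉ S.s}, ((S.dif_finite (flat v)).image fun k => v + 1 - k).subset fun k hk => by
    refine ⟨v + 1 - k, ?_, by simp⟩
    simp only [Set.mem_ofPred_eq, mem_flat] at hk ⊢
    intro h
    apply hk
    rw [h]
    omega⟩
@[simp] lemma mem_mir {v k : ℤ} {S : Col} : k ∈ (mir v S).s ↔ v + 1 - k ∉ S.s := Iff.rfl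

/-- The reflected disorder. -/
def mirD (v : ℤ) (ξ : Dis D) : Dis D := fun x o k =>
  ξ x o (if o = none then v - k else v + 1 - k)

/-- The reflection as a permutation of the index set. -/
def mperm {n N : ℕ} (v : ℤ) : Equiv.Perm (Ix D n N) where
  toFun i := (i.1, i.2.1, (if i.2.1 = none then (v : ZMod N) else (v : ZMod N) + 1) - i.2.2)
  invFun i := (i.1, i.2.1, (if i.2.1 = none then (v : ZMod N) else (v : ZMod N) + 1) - i.2.2)
  left_inv i := by simp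
  right_inv i := by simp

/-! ### Clusters of bad blocks -/

/-- The cluster of the origin inside the ball of radius `Λ`, with steps of size `lam`. -/
def clus (B : V D → Prop) (lam Λ : ℕ) : Finset (V D) :=
  (ball D Λ).filter fun w =>
    Relation.ReflTransGen (fun v v' => v' ∈ ball D Λ ∧ B v' ∧ v' - v ∈ ball D lam) 0 w

/-- The origin is bad, there are few bad blocks nearby, and it is the first of its cluster. -/
def IsRoot (B : V D → Prop) (lam Λ k₀ : ℕ) : Prop :=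
  B 0 ∧ ((ball D Λ).filter B).card ≤ k₀ ∧ ∀ w ∈ clus B lam Λ, toLex (0 : V D) ≤ toLex w

/-! ### Dependence on a set of bits -/

def Dep {I α : Type} (A : I → Prop) (f : (I → Bool) → α) : Prop :=
  ∀ ω ω', (∀ i, A i → ω i = ω' i) → f ω = f ω'

/-! ### Basic API -/

lemma mem_ball {ρ : ℕ} {x : V D} : x ∈ ball D ρ ↔ ∀ i, -(ρ : ℤ) ≤ x i ∧ x i ≤ ρ := by
  simp [ball]
lemma mem_cube {α β : ℤ} {x : V D} : x ∈ cube D α β ↔ ∀ i, α ≤ x i ∧ x i ≤ β := by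
  simp [cube]
lemma card_ball (ρ : ℕ) : (ball D ρ).card = (2 * ρ + 1) ^ D := by
  have : ((ρ : ℤ) + 1 + ρ).toNat = 2 * ρ + 1 := by omega
  simp [ball, this]
lemma card_cube (α : ℤ) (k : ℕ) : (cube D α (α + k - 1)).card = k ^ D := by
  simp [cube]
lemma zero_mem_ball (ρ : ℕ) : (0 : V D) ∈ ball D ρ := mem_ball.2 fun i => by simp
@[simp] lemma cv_apply (k : ℤ) (i : Fin D) : (cv k : V D) i = k := rfl

lemma Adj.symm {x y : V D} (h : Adj x y) : Adj y x := by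
  obtain ⟨i, h⟩ := h; exact ⟨i, h.symm⟩
lemma adj_tip (e : Ed D) : Adj e.1 (tip e) := ⟨e.2, Or.inl rfl⟩
lemma Adj.l1_eq {x y : V D} (h : Adj x y) : l1 (y - x) = 1 := by
  obtain ⟨i, rfl | rfl⟩ := h
  · simp
  · rw [l1_sub_comm]; simp
lemma Adj.abs_le {x y : V D} (h : Adj x y) (i : Fin D) : x i - 1 ≤ y i ∧ y i ≤ x i + 1 := by
  obtain ⟨j, rfl | rfl⟩ := h <;> simp only [Pi.add_apply, ee_apply] <;> split_ifs <;> omega
lemma abs_le_l1 (v : V D) (i : Fin D) : |(v i : ℝ)| ≤ l1 v :=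
  single_le_sum (f := fun i => |(v i : ℝ)|) (fun _ _ => abs_nonneg _) (mem_univ i)
lemma Reach.base {P Z : V D → Prop} {x : V D} (h : P x) : Reach P Z x := ⟨x, h, .refl⟩
lemma Reach.step {P Z : V D → Prop} {x y : V D} (h : Reach P Z x) (ha : Adj x y) (hz : Z y) :
    Reach P Z y := by
  obtain ⟨p, h1, h2⟩ := h; exact ⟨p, h1, h2.tail ⟨ha, hz⟩⟩
lemma Reach.cases {P Z : V D → Prop} {x : V D} (h : Reach P Z x) : P x ∨ Z x := by
  obtain ⟨p, h1, h2⟩ := h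
  cases h2 with
  | refl => exact Or.inl h1
  | tail _ h3 => exact Or.inr h3.2
lemma glue_pos {A : V D → Prop} {F U : Conf D} {x : V D} (h : A x) : glue A F U x = F x :=
  if_pos h
lemma glue_neg {A : V D → Prop} {F U : Conf D} {x : V D} (h : ¬A x) : glue A F U x = U x :=
  if_neg h

lemma win_iff {l h : ℤ} {U : Conf D} : Win l h U ↔ ∀ x, WinCol l h (U x) := Iff.rfl
lemma winCol_flat {l h c : ℤ} : WinCol l h (flat c) ↔ l ≤ c ∧ c ≤ h :=
  ⟨fun H => ⟨H.1 l le_rfl, H.2 c (mem_flat.2 le_rfl)⟩,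
    fun H => ⟨fun _ hk => le_trans hk H.1, fun _ hk => le_trans hk H.2⟩⟩
lemma winCol_sh {l h t : ℤ} {S : Col} : WinCol (l - t) (h - t) (sh t S) ↔ WinCol l h S := by
  constructor
  · rintro ⟨h1, h2⟩
    refine ⟨fun k hk => ?_, fun k hk => ?_⟩
    · simpa using h1 (k - t) (by omega)
    · have := h2 (k - t) (by simpa using hk); omega
  · rintro ⟨h1, h2⟩
    exact ⟨fun k hk => h1 _ (by omega), fun k hk => by have := h2 _ hk; omega⟩
lemma WinCol.mono {l h l' h' : ℤ} {S : Col} (H : WinCol l h S) (h1 : l' ≤ l) (h2 : h ≤ h') :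
    WinCol l' h' S := ⟨fun k hk => H.1 k (hk.trans h1), fun k hk => (H.2 k hk).trans h2⟩
lemma WinCol.bd_mem {l h k : ℤ} {S : Col} (H : WinCol l h S) (hk : k ∈ bd S) : l ≤ k ∧ k ≤ h := by
  rw [mem_bd] at hk
  have h1 := H.1 k; have h2 := H.1 (k + 1); have h3 := H.2 k; have h4 := H.2 (k + 1)
  constructor
  · by_contra h; exact hk ⟨fun _ => h2 (by omega), fun _ => h1 (by omega)⟩
  · by_contra h
    exact hk ⟨fun h' => absurd (h3 h') h, fun h' => absurd (h4 h') (by omega)⟩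
lemma WinCol.dif_mem {l h k : ℤ} {S T : Col} (H : WinCol l h S) (H' : WinCol l h T)
    (hk : k ∈ dif S T) : l < k ∧ k ≤ h := by
  rw [mem_dif] at hk
  have h1 := H.1 k; have h2 := H'.1 k; have h3 := H.2 k; have h4 := H'.2 k
  constructor
  · by_contra h; exact hk ⟨fun _ => h2 (by omega), fun _ => h1 (by omega)⟩
  · by_contra h
    exact hk ⟨fun h' => absurd (h3 h') h, fun h' => absurd (h4 h') h⟩
lemma cfgA_zero {n : ℕ} : CfgA (D := D) n 0 = Cfg n := rfl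
lemma GA_zero {n : ℕ} (ξ : Dis D) : GA n 0 ξ = GE n ξ := rfl

lemma tr_tr (c c' : V D) (ξ : Dis D) : tr c (tr c' ξ) = tr (c + c') ξ := by
  funext x; simp [tr, add_assoc]
@[simp] lemma tr_zero (ξ : Dis D) : tr 0 ξ = ξ := by funext x; simp [tr]
lemma mv_mv (c c' : V D) (F : Conf D) : mv c (mv c' F) = mv (c + c') F := by
  funext x; simp [mv, sub_sub]
@[simp] lemma mv_zero (F : Conf D) : mv 0 F = F := by funext x; simp [mv]
lemma mv_apply (c x : V D) (F : Conf D) : mv c F x = F (x - c) := rfl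
lemma tr_shc (c : V D) (k : ℤ) (ξ : Dis D) : tr c (shc k ξ) = shc k (tr c ξ) := rfl
lemma tr_mirD (c : V D) (v : ℤ) (ξ : Dis D) : tr c (mirD v ξ) = mirD v (tr c ξ) := rfl
@[simp] lemma shc_zero (ξ : Dis D) : shc 0 ξ = ξ := by funext x o k; simp [shc, shift]
lemma shc_shc (k k' : ℤ) (ξ : Dis D) : shc k (shc k' ξ) = shc (k + k') ξ := by
  funext x o j; simp [shc, shift, add_assoc]
lemma TwoV.tr {a b : ℝ} {ξ : Dis D} (h : TwoV a b ξ) (c : V D) : TwoV a b (tr c ξ) :=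
  fun _ _ _ => h _ _ _
lemma TwoV.shc {a b : ℝ} {ξ : Dis D} (h : TwoV a b ξ) (k : ℤ) : TwoV a b (shc k ξ) :=
  fun _ _ _ => h _ _ _
lemma TwoV.mirD {a b : ℝ} {ξ : Dis D} (h : TwoV a b ξ) (v : ℤ) : TwoV a b (mirD v ξ) :=
  fun _ _ _ => h _ _ _
lemma mirD_mirD (v : ℤ) (ξ : Dis D) : mirD v (mirD v ξ) = ξ := by
  funext x o k; unfold mirD; split_ifs <;> simp
lemma shc_dis {n N : ℕ} (a b : ℝ) (k : ℤ) (ω : Ix D n N → Bool) :
    shc k (dis a b ω) = dis a b (ω ∘ sperm fun _ => k) := shift_dis a b _ ω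
lemma mirD_dis {n N : ℕ} (a b : ℝ) (v : ℤ) (ω : Ix D n N → Bool) :
    mirD v (dis a b ω) = dis a b (ω ∘ mperm v) := by
  funext x o k
  by_cases h : x ∈ hatB D n
  · by_cases ho : o = none <;> simp [mirD, dis, mperm, h, ho]
  · simp [mirD, dis, h]
@[simp] lemma ovr_empty {n N : ℕ} (ω : Ix D n N → Bool) : ovr ∅ ω = ω := by
  funext i; simp [ovr]
lemma ovr_sperm {n N : ℕ} (O : Finset (V D)) (s : V D → ℤ) (ω : Ix D n N → Bool) :
    ovr O (ω ∘ sperm s) = ovr O ω ∘ sperm s := rfl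

lemma Agree.symm {n : ℕ} {ξ ξ' : Dis D} (h : Agree n ξ ξ') : Agree n ξ' ξ :=
  fun x hx => (h x hx).symm
lemma Agree.shift {n : ℕ} {ξ ξ' : Dis D} (h : Agree n ξ ξ') (s : V D → ℤ) :
    Agree n (shift s ξ) (shift s ξ') := fun x hx => by
  funext o k; simp only [MP_67bca4_pr.shift, h x hx]
lemma Agree.shc {n : ℕ} {ξ ξ' : Dis D} (h : Agree n ξ ξ') (k : ℤ) :
    Agree n (shc k ξ) (shc k ξ') := h.shift _
lemma Agree.tr {n n' : ℕ} {ξ ξ' : Dis D} (h : Agree n ξ ξ') {c : V D} (hc : CubeIn c n' n) :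
    Agree n' (tr c ξ) (tr c ξ') := fun x hx => h _ (mem_hatB.2 fun i => by
  have := mem_hatB.1 hx i; have := hc i; simp only [Pi.add_apply]; omega)
lemma Agree.En {n : ℕ} {ξ ξ' : Dis D} (h : Agree n ξ ξ') : En n ξ = En n ξ' := by
  funext U
  unfold MP_67bca4_pr.En
  congr 1
  · exact sum_congr rfl fun x hx => by rw [h x hx]
  · exact sum_congr rfl fun e he => by rw [h e.1 (mem_edB.1 he).1]
lemma Agree.GEc {n : ℕ} {ξ ξ' : Dis D} (h : Agree n ξ ξ') : GEc n ξ = GEc n ξ' := by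
  funext K; unfold MP_67bca4_pr.GEc; rw [h.En]
lemma Agree.IsMinC {n : ℕ} {ξ ξ' : Dis D} (h : Agree n ξ ξ') : IsMinC n ξ = IsMinC n ξ' := by
  funext K U; unfold MP_67bca4_pr.IsMinC; rw [h.En]
lemma Agree.GE {n : ℕ} {ξ ξ' : Dis D} (h : Agree n ξ ξ') : GE n ξ = GE n ξ' := by
  unfold MP_67bca4_pr.GE; rw [h.GEc]
lemma Agree.IsMin {n : ℕ} {ξ ξ' : Dis D} (h : Agree n ξ ξ') : IsMin n ξ = IsMin n ξ' := by
  funext U; unfold MP_67bca4_pr.IsMin; rw [h.IsMinC]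
lemma Agree.GA {n : ℕ} {ξ ξ' : Dis D} (h : Agree n ξ ξ') (c : ℤ) : GA n c ξ = GA n c ξ' := by
  unfold MP_67bca4_pr.GA; rw [h.GEc]
lemma Agree.Phi {n : ℕ} {ξ ξ' : Dis D} (h : Agree n ξ ξ') (A : Finset (V D)) (l u c : ℤ) :
    Phi n A l u c ξ = Phi n A l u c ξ' := by
  unfold MP_67bca4_pr.Phi; rw [h.GEc]
lemma Agree.ViolA {n : ℕ} {ξ ξ' : Dis D} (h : Agree n ξ ξ') (A : Finset (V D)) (l u c : ℤ) :
    ViolA n A l u c ξ ↔ ViolA n A l u c ξ' := by
  unfold MP_67bca4_pr.ViolA; rw [h.IsMinC]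
lemma Agree.GoodM {n : ℕ} {ξ ξ' : Dis D} (h : Agree n ξ ξ') (a : ℝ) (Ω : Finset (V D)) (μ : ℕ)
    (s : Fn D) (m : ℕ) : GoodM n a ξ Ω μ s m ↔ GoodM n a ξ' Ω μ s m := by
  unfold MP_67bca4_pr.GoodM; rw [h.GE, (h.shift s).GE]
lemma Agree.GoodAt {n : ℕ} {ξ ξ' : Dis D} (h : Agree n ξ ξ') (a : ℝ) (y : V D) (m : ℕ) :
    GoodAt n a ξ y m ↔ GoodAt n a ξ' y m := by
  unfold MP_67bca4_pr.GoodAt; simp only [h.GoodM]

lemma GoodAt.mono {n : ℕ} {a : ℝ} {ξ : Dis D} {y : V D} {m m' : ℕ} (h : GoodAt n a ξ y m)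
    (hm : m' ≤ m) : GoodAt n a ξ y m' := by
  obtain ⟨s, k, h1, h2⟩ := h; exact ⟨s, k, hm.trans h1, h2⟩
lemma Gain.goodAt {n : ℕ} {a : ℝ} (ha : 0 ≤ a) {ξ : Dis D} {y : V D} {X₀ : ℕ}
    (h : Gain n a ξ y X₀) : GoodAt n a ξ y X₀ := by
  obtain ⟨s, X, h1, h2, h3⟩ := h
  refine ⟨s, 2 * X, by omega, h2, ?_⟩
  have : 0 ≤ a * X := by positivity
  push_cast
  linarith

end

end Pool.Agent.P.MP_67bca4_pr
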