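import Pool.Agent.P.MP_67bca4_pr.AH.S1

/-!
Definitions for the extension to all heights, part two: scales, bad blocks, local window costs,
spoilt blocks, pure blocks, and the numerical conditions.
-/

namespace Pool.Agent.P.MP_67bca4_pr

open Finset
open scoped Classical

noncomputable section

variable {D : ℕ}

/-- The free scales. -/
structure Par (D : ℕ) where
  K1 : ℕ
  K2 : ℕ
  K : ℕ
  h0 : ℕ
  lb : ℕ
  MP : ℕ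
  mg : ℕ
  k1 : ℕ
  mu : ℕ
  l0 : ℕ

namespace Par

variable (P : Par D)

def swap : Par D := { P with K1 := P.K2, K2 := P.K1 }
def g : ℕ := 25 * (D * P.mg)
def r00 : ℕ := P.lb + 25 * P.MP + 3
def rc : ℕ := P.g + P.r00 + 1
def r0 : ℕ := 2 * P.rc
def nL : ℕ := P.r0 + 2 * P.g
def k0 : ℕ := 2 ^ D * P.k1
def M : ℕ := D * P.mu
def r : ℕ := 25 * P.M
def lam : ℕ := 4 * P.r + 1
def Lam : ℕ := (P.k0 + 1) * P.lam
def RQ : ℕ := P.Lam * P.r0 + 2 * P.r + P.g + 1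
def nQ : ℕ := 2 * P.RQ + P.r0
def R1 : ℕ := D * (P.nQ + 1) + 7 * D * 2 ^ P.l0
def R3 : ℕ := P.RQ + (P.Lam + 2) * P.r0
def R4 : ℕ := P.R1 + P.r0
def rs : ℕ := P.Lam + P.R1 + P.mu + 1
def B0 (b : ℝ) : ℝ := P.k0 * P.r0 ^ D * (b * (2 + 2 * D * P.mg))
def B1 (b : ℝ) : ℝ := 3 * P.B0 b + 2 * b * P.r0 ^ D
/-- The second central level. -/
def us : ℤ := (P.K2 : ℤ) - P.K1

/-- The corner of the block `z`. -/
def cB (z : V D) : V D := fun i => P.r0 * z i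
/-- The corner of the small cube around the block `z`. -/
def cL (z : V D) : V D := fun i => P.r0 * z i - P.g
/-- The corner of the large cube around the block `z`. -/
def cQ (z : V D) : V D := fun i => P.r0 * z i - P.RQ
/-- The block of a column. -/
def blk (x : V D) : V D := fun i => x i / P.r0
/-- The block inside its small cube. -/
def blkL : Finset (V D) := cube D P.g (P.g + P.r0 - 1)

/-- The marker event. -/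
def Mark (b : ℝ) (u : ℤ) (η : Dis D) : Prop :=
  ∀ k : ℤ, -(P.K : ℤ) ≤ k → k ≤ P.K →
    η (cv (P.g + P.rc - 1)) none k = b ∧ η (cv (P.g + P.rc - 1)) none (u - k) = b

/-- A bad block for the level `u`, seen from the corner of its small cube. -/
def badL (b : ℝ) (u : ℤ) (η : Dis D) : Prop :=
  ViolA P.nL P.blkL (-P.K1) P.K2 0 η ∨ ViolA P.nL P.blkL (u - P.K2) (u + P.K1) u η ∨ P.Mark b u η

def Bad (b : ℝ) (u : ℤ) (ξ : Dis D) (z : V D) : Prop := P.badL b u (tr (P.cL z) ξ)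

/-- Bad blocks seen from the corner of the large cube. -/
def BadQ (b : ℝ) (u : ℤ) (η : Dis D) (w : V D) : Prop := P.Bad b u (tr (cv P.RQ) η) w

/-- The cluster of the central block. -/
def Kl (b : ℝ) (u : ℤ) (η : Dis D) : Finset (V D) := clus (P.BadQ b u η) P.lam P.Lam

/-- The columns within distance `ρ` of the blocks in `S`, seen from the large cube. -/
def nb (ρ : ℕ) (S : Finset (V D)) : Finset (V D) :=
  S.biUnion fun w => Fintype.piFinset fun i =>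
    Finset.Icc (P.r0 * w i + P.RQ - ρ : ℤ) (P.r0 * w i + P.RQ + P.r0 - 1 + ρ)

def core (b : ℝ) (u : ℤ) (η : Dis D) : Finset (V D) := P.nb P.r (P.Kl b u η)

def VA (b : ℝ) (u : ℤ) (η : Dis D) : ℝ :=
  Phi P.nQ (P.core b u η) (-P.K1) P.K2 u η - GA P.nQ u η
def VB (b : ℝ) (u : ℤ) (η : Dis D) : ℝ :=
  Phi P.nQ (P.core b u η) (u - P.K2) (u + P.K1) 0 η - GA P.nQ 0 η
def VC (b : ℝ) (u : ℤ) (η : Dis D) : ℝ :=
  Phi P.nQ (P.core b u η) (u - P.K2) (u + P.K1) u η - GA P.nQ u η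
def VD (b : ℝ) (u : ℤ) (η : Dis D) : ℝ :=
  Phi P.nQ (P.core b u η) (-P.K1) P.K2 0 η - GA P.nQ 0 η

def Root (b : ℝ) (u : ℤ) (η : Dis D) : Prop := IsRoot (P.BadQ b u η) P.lam P.Lam P.k0

def Ind (b : ℝ) (u : ℤ) (η : Dis D) : Prop :=
  P.Root b u η ∧ P.VD b u η ≤ P.B0 b ∧ P.VC b u η ≤ P.B0 b ∧ -(P.K1 : ℤ) ≤ u ∧ u ≤ P.K2

/-- The local excess cost of the level `u` over the level `0`. -/
def Y (b : ℝ) (u : ℤ) (η : Dis D) : ℝ :=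
  if P.Ind b u η then min (P.VA b u η) (3 * P.B0 b) - P.VD b u η else 0

/-- A large good shift in the large cube or in one of the small cubes, at some level. -/
def RareQ (a : ℝ) (η : Dis D) : Prop :=
  ∃ c : ℤ, -(P.K : ℤ) ≤ c ∧ c ≤ P.K ∧ ((∃ x ∈ inB D P.nQ, GoodAt P.nQ a (shc c η) x P.mg) ∨
    ∃ w ∈ ball D P.Lam, ∃ x ∈ inB D P.nL,
      GoodAt P.nL a (shc c (tr (P.cL w + cv P.RQ) η)) x P.mg)

def ZL (n : ℕ) : Finset (V D) := (hatB D n).filter fun z => CubeIn (P.cL z) P.nL n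
def ZQ (n : ℕ) : Finset (V D) := (hatB D n).filter fun z => CubeIn (P.cQ z) P.nQ n
def ZD (n : ℕ) : Finset (V D) := (P.ZQ n).filter fun z => ∀ v ∈ ball D P.Lam, z + v ∈ P.ZQ n
/-- The boundary layer. -/
def BL (n : ℕ) : Finset (V D) := (inB D n).filter fun x => P.blk x ∉ P.ZD n

def DenseS (b : ℝ) (n : ℕ) (ξ : Dis D) (v : V D) : Prop :=
  ∃ u : ℤ, -(P.K : ℤ) ≤ u ∧ u ≤ P.K ∧
    P.k0 < ((P.ZL n).filter fun z => z - v ∈ ball D P.rs ∧ P.Bad b u ξ z).card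

/-- Spoilt blocks. -/
def Sp (a b : ℝ) (n : ℕ) (ξ : Dis D) (v : V D) : Prop :=
  P.DenseS b n ξ v ∨ (v ∈ P.ZQ n ∧ (P.RareQ a (tr (P.cQ v) ξ) ∨
    ∃ x, x - P.cQ v ∈ hatB D P.nQ ∧ GoodAt n a ξ x P.mg))

/-- The centred sum of the local costs along the level function `t`. -/
def Ybar (b : ℝ) (mY : ℤ → ℝ) (n : ℕ) (ξ : Dis D) (t : V D → ℤ) : ℝ :=
  ∑ z ∈ P.ZQ n, (P.Y b (t (P.cB z)) (tr (P.cQ z) ξ) - mY (t (P.cB z)))

/-- A large step of the centred sum along a chain. -/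
def YEv (a b : ℝ) (mY : ℤ → ℝ) (n m₀ : ℕ) (ξ : Dis D) : Prop :=
  ∃ (m l : ℕ) (t t' : Fn D), m₀ ≤ m ∧ P.l0 ≤ l ∧ 2 ^ (l * (D - 2)) ≤ m ∧
    LevM n (hatB D n) P.mu m l t ∧ LevM n (hatB D n) P.mu m (l + 1) t' ∧
    (t' - t).support.card ≤ 3 * (2 ^ l) ^ 2 * m ∧
    a * m / 2 ^ (l + 5) ≤ P.Ybar b mY n ξ t' - P.Ybar b mY n ξ t

/-- A good local minimiser. -/
def LG0 (l h : ℤ) (η : Dis D) (x : V D) : Prop :=
  ∃ F, IsMin P.nQ η F ∧ Win l h F ∧ F x = flat 0 ∧ ¬Heavy P.nQ F x P.M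

def LG (u : ℤ) (η : Dis D) (x : V D) : Prop := P.LG0 (-P.K1 - u) (P.K2 - u) (shc u η) x

/-- Local goodness at both central levels localises the slab problem at `x`. -/
def Nice (n : ℕ) (ξ : Dis D) (x : V D) : Prop :=
  P.blk x ∈ P.ZQ n ∧
    ((∀ u, u = 0 ∨ u = P.us → P.LG u (tr (P.cQ (P.blk x)) ξ) (x - P.cQ (P.blk x))) →
      ∃ G, IsMinC n ξ (WCl n (-P.K1) P.K2) G ∧ (G x = flat 0 ∨ G x = flat P.us))

/-- The planted region and the plate, seen from the large cube. -/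
def Rpl : Finset (V D) := cube D (P.RQ + P.rc - P.r00) (P.RQ + P.rc + P.r00)
def ell (a b : ℝ) : ℕ := ⌊2 * D * b * (P.K2 + 1) / (b - a)⌋₊
def Pl (a b : ℝ) : Finset (V D) := cube D (P.RQ + P.rc) (P.RQ + P.rc + P.ell a b - 1)
def Planted (a b : ℝ) (η : Dis D) : Prop :=
  ∀ x ∈ P.Rpl, ∀ o (k : ℤ), -(2 * P.K + 2 : ℤ) ≤ k → k ≤ 2 * P.K + 2 →
    η x o k = if x ∈ P.Pl a b ∧ o = none ∧ k = P.K2 + 1 then a else b
/-- `η'` is `η` overwritten by `b` on the planted region. -/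
def Ovw (b : ℝ) (η η' : Dis D) : Prop :=
  (∀ x ∈ P.Rpl, ∀ o k, η' x o k = b) ∧ ∀ x, x ∉ P.Rpl → η' x = η x
def DGood (a : ℝ) (η' : Dis D) : Prop :=
  ∀ c : ℤ, c = 0 ∨ c = 1 → ∀ y ∈ inB D P.nQ, ¬GoodAt P.nQ a (shc c η') y P.h0

/-- The deterministic conditions on the scales. -/
structure Ok (a b : ℝ) : Prop where
  hD : 100 ≤ D
  ha : 0 < a
  hab : a < b
  hb : 4 * b ≤ a * D
  h1 : 2 * P.h0 + 1 ≤ P.K1
  h2 : 2 * P.h0 + 1 ≤ P.K2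
  h3 : P.K1 ≤ P.K
  h4 : P.K2 ≤ P.K
  h5 : P.K1 ≤ P.K2 + 1
  h6 : P.K2 ≤ P.K1 + 1
  hh : D ^ 3 ≤ P.h0
  hmg : P.h0 ≤ P.mg
  hmu : 2 * P.mg ≤ P.mu
  hk1 : 1 ≤ P.k1
  hl0 : 1 ≤ P.l0
  hlb : 2 * D * b * (P.K + 1) ≤ P.lb * (b - a)
  hMP1 : 4 * D * ((b - a) * P.lb ^ D) ≤ a * P.MP
  hMP2 : 2 * D * P.h0 ≤ P.MP
  hB0 : 4 * P.B0 b ≤ a * P.mu
  hB1 : 16 * P.B1 b * ((2 * P.K + 1) * P.k0 * (1 + 50 * D)) ≤ a * P.mu

/-- The data obtained by removing a maximal family of heavy contours from a slab minimiser. -/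
structure GD (a : ℝ) (n : ℕ) (ξ : Dis D) (U U' : Conf D) (C : Finset (Ed D)) (s : Fn D) :
    Prop where
  hU : IsMinC n ξ (WCl n (-P.K1) P.K2) U
  hC : Closed (Jst n U) C
  cfg : Cfg n U'
  supp : Supp n s
  jmp : jumps s ⊆ C
  en : En n (shift s ξ) U' + a * Xs n U C ≤ En n ξ U
  win : ∀ x, WinCol (-P.K1 - s x) (P.K2 - s x) (U' x)
  same : ∀ x, (∀ e ∈ C, e.1 ≠ x ∧ tip e ≠ x) → U' x = sh (s x) (U x)
  light : ∀ y ∈ hatB D n, ¬Heavy n U' y P.M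

/-- Pure blocks. -/
def Pure (n : ℕ) (C : Finset (Ed D)) (s t : V D → ℤ) (z : V D) : Prop :=
  z ∈ P.ZQ n ∧ (∀ e ∈ C, ¬∀ i, P.cQ z i - 1 ≤ e.1 i ∧ e.1 i ≤ P.cQ z i + P.nQ) ∧
    s (P.cB z) = t (P.cB z)

/-- The roots that are used in the comparison. -/
def ZZ (a b : ℝ) (n : ℕ) (ξ : Dis D) (C : Finset (Ed D)) (s t : V D → ℤ) : Finset (V D) :=
  (P.ZQ n).filter fun z => P.Pure n C s t z ∧ P.Root b (t (P.cB z)) (tr (P.cQ z) ξ) ∧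
    ¬P.Sp a b n ξ z

/-- The violating columns of `F` that are not in a used cluster. -/
def Unc (a b : ℝ) (n : ℕ) (ξ : Dis D) (C : Finset (Ed D)) (s t : V D → ℤ) (F : Conf D) :
    Finset (V D) :=
  (inB D n).filter fun x => ¬WinCol (-P.K1) P.K2 (F x) ∧ ∀ z ∈ P.ZZ a b n ξ C s t,
    x - P.cQ z ∉ P.nb 0 (P.Kl b (t (P.cB z)) (tr (P.cQ z) ξ))

/-- Problem blocks. -/
def Prob (a b : ℝ) (n : ℕ) (ξ : Dis D) (C : Finset (Ed D)) (s t : V D → ℤ) (z : V D) : Prop :=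
  (∃ v ∈ ball D P.Lam, P.Sp a b n ξ (z + v)) ∨
    ((∃ u : ℤ, -(P.K : ℤ) ≤ u ∧ u ≤ P.K ∧ P.Bad b u ξ z) ∧
      ∃ v ∈ ball D P.Lam, z + v ∈ P.ZQ n ∧ ¬P.Pure n C s t (z + v))

/-! ### Probabilities and numerical conditions -/

def rhoB (p : ℝ) : ℝ := 2 * P.r0 ^ D * Real.exp (-√(P.h0 : ℝ)) + p ^ P.K
def piR : ℝ :=
  (2 * P.K + 1) * (P.nQ ^ D + (2 * P.Lam + 1) ^ D * P.nL ^ D) * Real.exp (-√(P.mg : ℝ))
def piS (p : ℝ) : ℝ :=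
  (2 * P.K + 1) * ((2 * P.rs + 1) ^ D * P.rhoB p) ^ P.k1 + P.piR +
    (P.nQ + 1) ^ D * Real.exp (-√(P.mg : ℝ))
def nP : ℕ := (2 * P.r00 + 1) ^ D * (D + 1) * (4 * P.K + 5)
def kap0 (p : ℝ) : ℝ := min p (1 - p) ^ P.nP
def kap (b p : ℝ) : ℝ := b * P.kap0 p / 8
def Gam (a b : ℝ) : ℝ := 786432 * ((P.nQ + 1) ^ D) ^ 2 * P.B0 b ^ 2 / a ^ 2
/-- The mean of the local cost. -/
def mY (a b p : ℝ) (N : ℕ) [NeZero N] (u : ℤ) : ℝ :=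
  Ex p fun ω : Ix D P.nQ N → Bool => P.Y b u (dis a b ω)

/-- The period is long enough. -/
def NR (a b : ℝ) (n N R : ℕ) : Prop :=
  4 * R < N ∧ b * ((n : ℝ) + 1) ^ D < a * R ∧ 4 * P.K + 5 ≤ N

/-- The numerical conditions that involve the size of the box. -/
structure Num (a b p C₁ η : ℝ) (n m₀ : ℕ) : Prop where
  n0 : P.nQ ≤ n
  n1 : D ^ 3 ≤ m₀
  n2 : C₁ * ((n : ℝ) + 1) ^ D * Real.exp (-(√(P.mu : ℝ) / C₁)) ≤ m₀
  n3 : 240 * D ^ 2 * P.Gam a b ≤ 2 ^ P.l0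
  n4 : ((n : ℝ) + 1) ^ D * Real.exp (-(2 ^ P.l0)) ≤ m₀
  n5 : Real.exp (-√(m₀ : ℝ)) ≤ η
  n6 : (2 * P.Lam + 1) ^ D * P.rhoB p + 2 * P.nQ ^ D * Real.exp (-√(P.h0 : ℝ)) ≤ 1 / 32
  n7 : P.piR ≤ P.kap0 p / 4
  n8 : 32 * P.B1 b * (2 * P.rs + 1) ^ D * (((n : ℝ) + 1) ^ D * P.piS p) ≤ η * (a * m₀)
  n9 : 32 * b * (2 * D * P.R3 * ((n : ℝ) + 1) ^ (D - 1) * Real.exp (-√(P.h0 : ℝ))) ≤ η * (a * m₀)
  n10 : 2 * D * P.R3 * ((n : ℝ) + 1) ^ (D - 1) + D * m₀ * (2 * P.R4 + 1) ^ D ≤ η * n ^ D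
  n11 : (n : ℝ) * m₀ ≤ η * n ^ D ∨ P.r0 ^ D * (a * m₀ / 2) ≤ P.kap b p * (η * n ^ D)

/-- The numerical conditions that do not involve the size of the box. -/
structure NumK (a b p C₁ η : ℝ) : Prop where
  k2 : C₁ * 2 ^ D * Real.exp (-(√(P.mu : ℝ) / C₁)) ≤ η / 4 * (P.kap b p / (a * P.r0 ^ D))
  k3 : 240 * D ^ 2 * P.Gam a b ≤ 2 ^ P.l0
  k4 : 2 ^ D * Real.exp (-(2 ^ P.l0)) ≤ η / 4 * (P.kap b p / (a * P.r0 ^ D))
  k6 : (2 * P.Lam + 1) ^ D * P.rhoB p + 2 * P.nQ ^ D * Real.exp (-√(P.h0 : ℝ)) ≤ 1 / 32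
  k7 : P.piR ≤ P.kap0 p / 4
  k8 : 32 * P.B1 b * (2 * P.rs + 1) ^ D * (2 ^ D * P.piS p) ≤
    η * (a * (η / 4 * (P.kap b p / (a * P.r0 ^ D))))
  k9 : 32 * b * (2 * D * P.R3 * 2 ^ D * Real.exp (-√(P.h0 : ℝ))) ≤ η * (a * (η / 4))
  k10 : D * (2 * P.R4 + 1) ^ D * (P.kap b p / (a * P.r0 ^ D)) ≤ 1

end Par

end

end Pool.Agent.P.MP_67bca4_pr
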