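import Pool.Agent.P.MP_67bca4_pr.AH.TM

/-!
Statements of the general lemmas (part one) used for the extension to all heights.
Each is proved in its own file.
-/

namespace Pool.Agent.P.MP_67bca4_pr

open Finset
open scoped Classical

noncomputable section

/-! ### Small additions to the basic API -/

section Api
variable {D : ℕ}

/-- The embedding of the indices of a subcube. -/
def locI {n n' N : ℕ} {c : V D} (h : CubeIn c n' n) (i : Ix D n' N) : Ix D n N :=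
  (⟨i.1.1 + c, mem_hatB.2 fun j => by
    have := mem_hatB.1 i.1.2 j; have := h j; simp only [Pi.add_apply]; omega⟩, i.2)

lemma locI_inj {n n' N : ℕ} {c : V D} (h : CubeIn c n' n) :
    Function.Injective (locI (N := N) h) := by
  rintro ⟨⟨x, hx⟩, i⟩ ⟨⟨y, hy⟩, j⟩ e
  simp only [locI, Prod.mk.injEq, Subtype.mk.injEq, add_left_inj] at e
  obtain ⟨rfl, rfl⟩ := e
  rfl

lemma agree_locI {n n' N : ℕ} {c : V D} (h : CubeIn c n' n) (a b : ℝ) (ω : Ix D n N → Bool) :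
    Agree n' (tr c (dis a b ω)) (dis a b (ω ∘ locI h)) := by
  intro x hx
  funext o k
  have h1 : x + c ∈ hatB D n := (locI (N := N) h (⟨x, hx⟩, none, 0)).1.2
  simp only [tr, dis, hx, h1, dif_pos]
  rfl

lemma dep_tr {α : Type} {n n' N : ℕ} (c : V D) (a b : ℝ) {f : Dis D → α}
    (hf : ∀ ξ ξ', Agree n' ξ ξ' → f ξ = f ξ') :
    Dep (fun i : Ix D n N => i.1.1 - c ∈ hatB D n') fun ω => f (tr c (dis a b ω)) := by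
  intro ω ω' h
  refine hf _ _ fun x hx => ?_
  funext o k
  by_cases h1 : x + c ∈ hatB D n
  · simp only [tr, dis, h1, dif_pos]
    rw [h (⟨x + c, h1⟩, o, (k : ZMod N)) (by simpa using hx)]
  · simp [tr, dis, h1]

lemma phi_class_nonempty {n : ℕ} {A : Finset (V D)} (hA : A ⊆ inB D n) {l h : ℤ} (hl : l ≤ h)
    (c : ℤ) : ∃ U : Conf D, CfgA n c U ∧ WinOn A l h U := by
  refine ⟨fun x => if x ∈ A then flat l else flat c, fun x hx => ?_, fun x hx => ?_⟩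
  · exact if_neg fun h1 => hx (hA h1)
  · simp only [hx, if_true]; exact winCol_flat.2 ⟨le_rfl, hl⟩

lemma GA_le_Phi {n : ℕ} {a b : ℝ} (ha : 0 ≤ a) (hab : a ≤ b) {ξ : Dis D} (hξ : TwoV a b ξ)
    {A : Finset (V D)} (hA : A ⊆ inB D n) {l h : ℤ} (hl : l ≤ h) (c : ℤ) :
    GA n c ξ ≤ Phi n A l h c ξ := by
  obtain ⟨U, hU⟩ := exists_isMinC (n := n) ha (ha.trans hab) hξ (phi_class_nonempty hA hl c)
  rw [Phi, hU.GEc_eq]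
  exact GEc_le (fun x o k => ha.trans (hξ.le hab x o k).1) hU.1.1

lemma wcl_nonempty (n : ℕ) {l h : ℤ} (hl : l ≤ 0) (hh : 0 ≤ h) : ∃ U : Conf D, WCl n l h U :=
  ⟨fun _ => flat 0, cfg_flat n, fun _ => winCol_flat.2 ⟨hl, hh⟩⟩

lemma not_heavy_flat {n : ℕ} {x : V D} {M : ℕ} (hM : 1 ≤ M) :
    ¬Heavy n (fun _ : V D => flat 0) x M := by
  rintro ⟨C, h1, h2, -⟩
  obtain ⟨e, he⟩ := card_pos.1 (lt_of_lt_of_le hM h2)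
  have := (mem_filter.1 (h1.1 he)).2
  simp only [ne_eq, not_true_eq_false, Ovh, false_or, or_self] at this
  exact this 0 rfl

end Api

/-! ### Good shifts with several roots -/

def StCountFn : Prop :=
  ∀ {D : ℕ} {c : V D → ℝ}, (∀ S : Finset (V D), ∑ v ∈ S, Real.exp (-c v) ≤ 1 / 2) →
    ∀ (φ : V D → V D) (Ω : Finset (V D)) (j : ℕ) (i : Fin D) (A T θ : ℝ), 0 ≤ θ →
    ∀ S : Finset (Fn D),
      (∀ f ∈ S, MTour c φ Ω j (bases (dirE (jumps f) i)) A ∧ (TVi f i : ℝ) ≤ T) →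
      (S.card : ℝ) ≤ Real.exp (4 * A + T + j * θ + 6 * Ω.card * Real.exp (-θ))

def StCountLev : Prop :=
  ∀ {D : ℕ}, 100 ≤ D → ∀ (n : ℕ) (Ω : Finset (V D)) (μ m l : ℕ) (θ : ℝ), 0 ≤ θ →
    ∀ S : Finset (Fn D), (∀ t ∈ S, LevM n Ω μ m l t) →
      (S.card : ℝ) ≤ Real.exp (ent D m l + θ * m / ((max μ (2 ^ (l * (D - 2))) : ℕ) : ℝ) +
        6 * Ω.card * Real.exp (-θ))

def StChain : Prop :=
  ∀ {D : ℕ}, 100 ≤ D → ∀ {n : ℕ} {Ω : Finset (V D)} {μ : ℕ} {s : Fn D} {m : ℕ}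
    {J : Finset (Ed D)}, AdmJ n Ω μ s m J →
    ∃ t : ℕ → Fn D, t 0 = s ∧ (∀ l, LevM n Ω μ m l (t l)) ∧
      (∀ l, PackM n Ω μ m (2 ^ l) (t l) (t (l + 1) - t l).support (bases J)) ∧
      ∀ l, m < 2 ^ (l * (D - 2)) → t l = 0

def StLay : Prop :=
  ∀ {D : ℕ}, 100 ≤ D → ∀ {n : ℕ} {a b ρ : ℝ}, 0 < a → a ≤ b → b ≤ ρ * a → 2 * b < a * D →
    ∀ {ξ : Dis D}, TwoV a b ξ → ∀ {Ω : Finset (V D)} {μ m q : ℕ}, 1 ≤ m → 1 ≤ q →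
    ∀ {t : Fn D} {Y P : Finset (V D)}, PackM n Ω μ m q t Y P →
    (∀ s' m', m < m' → ¬GoodM n a ξ Ω μ s' m') → ∀ {U : Conf D}, IsMin n (shift t ξ) U →
    (Lay n U Y : ℝ) ≤ 19 * ρ * q ^ 3 * m

def StStep : Prop :=
  ∀ {D n N R : ℕ} [NeZero N], 4 * R < N → ∀ {a b : ℝ}, 0 < a → a < b → ∀ {p : ℝ}, 0 ≤ p → p ≤ 1 →
    ∀ (O : Finset (V D)) (t t' : Fn D) {β : ℝ}, 0 < β → ((t' - t).support.card : ℝ) ≤ β →
    ∀ {lam : ℝ}, 0 ≤ lam →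
    Pr p (fun ω : Ix D n N → Bool =>
      lam ≤ GT n R (t' - t).support β (shift t' (dis a b (ovr O ω))) -
        GT n R (t' - t).support β (shift t (dis a b (ovr O ω)))) ≤
      Real.exp (-(lam ^ 2 / (16 * (β * (b - a) ^ 2))))

def StNumRoot : Prop :=
  ∀ {D : ℕ}, 100 ≤ D → ∀ {c : ℝ}, 1 ≤ c → ∀ μ l : ℕ,
    32 ^ l * Real.exp (-(((max μ (2 ^ (l * (D - 2))) : ℕ) : ℝ) / (32 ^ l * c))) ≤
      2 * c * Real.exp (-(√(μ : ℝ) / (2 * c)))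

def StTail : Prop :=
  ∀ {ρ : ℝ}, 1 ≤ ρ → ∃ (D₀ : ℕ) (C₁ : ℝ), 100 ≤ D₀ ∧ 4 * ρ ≤ D₀ ∧ 1 ≤ C₁ ∧ ∀ D ≥ D₀,
    ∀ a b : ℝ, 0 < a → a < b → b ≤ ρ * a → ∀ p : ℝ, 0 ≤ p → p ≤ 1 →
      TailM D C₁ a b p ∧ Tail1 D a b p

/-! ### Removing contours -/

def StFlip : Prop :=
  ∀ {D n : ℕ}, 100 ≤ D → ∀ {a b : ℝ}, 0 ≤ a → ∀ {ξ : Dis D},
    (∀ x o k, a ≤ ξ x o k ∧ ξ x o k ≤ b) → ∀ {U : Conf D}, Cfg n U → ∀ {K : Finset (Ed D)},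
    Closed (JU n U) K → K.card ≤ D ^ 3 →
    ∃ (U' : Conf D) (A : Finset (V D)) (SA : ℕ), Cfg n U' ∧ JU n U' = JU n U \ K ∧
      (∀ x, x ∉ A → U' x = U x) ∧ A.card ≤ SA ∧ D * SA ≤ Wt U K ∧
      En n ξ U' + a * Wt U K ≤ En n ξ U + 2 * b * SA ∧ ∀ l h, Win l h U → Win l h U'

def StDebig : Prop :=
  ∀ {D n : ℕ}, 100 ≤ D → ∀ {a b : ℝ}, 0 < a → 4 * b ≤ a * D → ∀ {ξ : Dis D},
    (∀ x o k, a ≤ ξ x o k ∧ ξ x o k ≤ b) → ∀ {S : Conf D}, Cfg n S →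
    ∃ (S' : Conf D) (E : Finset (V D)), Cfg n S' ∧ Big (JU n S') ∧ (∀ x, x ∉ E → S' x = S x) ∧
      En n ξ S' + a * D / 2 * E.card ≤ En n ξ S

def StBigW : Prop :=
  ∀ {D n : ℕ}, 100 ≤ D → ∀ {a b : ℝ}, 0 < a → 4 * b ≤ a * D → ∀ {ξ : Dis D},
    (∀ x o k, a ≤ ξ x o k ∧ ξ x o k ≤ b) → ∀ {l h : ℤ} {U : Conf D},
    IsMinC n ξ (WCl n l h) U → Big (JU n U)

def StLemA : Prop :=
  ∀ {D n : ℕ}, 2 ≤ D → ∀ {a : ℝ} {ξ : Dis D}, (∀ x o k, a ≤ ξ x o k) →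
    ∀ {U : Conf D}, Cfg n U → ∀ {C : Finset (Ed D)}, Closed (Jst n U) C →
    ∃ (t : Fn D) (U' : Conf D), Cfg n U' ∧ Supp n t ∧ jumps t ⊆ JU n U ∩ C ∧
      TV t ≤ 2 * Xs n U C ∧ En n (shift t ξ) U' + a * Xs n U C ≤ En n ξ U ∧
      Jst n U' = Jst n U \ C ∧
      (∀ x l h, WinCol l h (U x) → WinCol (l - t x) (h - t x) (U' x)) ∧
      ∀ x, (∀ e ∈ C, e.1 ≠ x ∧ tip e ≠ x) → U' x = sh (t x) (U x)

def StMaxFam : Prop :=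
  ∀ {D : ℕ} (J : Finset (Ed D)) (Ω : Finset (V D)) (M : ℕ), 1 ≤ M →
    ∃ C, Closed J C ∧ (∃ j : ℕ, j * M ≤ C.card ∧ MTour l1 id Ω j (bases C) (50 * C.card)) ∧
      ∀ y ∈ Ω, ∀ C', Closed J C' → Disjoint C' C → M ≤ C'.card →
        ¬Tour l1 y (bases C') (25 * C'.card)

/-! ### Chains of components and gluing -/

def StAttach : Prop :=
  ∀ {D n : ℕ}, 2 ≤ D → ∀ {U : Conf D}, Cfg n U → ∀ {y : V D}, U y ≠ flat 0 →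
    ∃ e₀ ∈ Jst n U, l1 (y - e₀.1) ≤ (cl (Jst n U) {e₀}).card

def StLink : Prop :=
  ∀ {D n : ℕ}, 2 ≤ D → ∀ {U U' : Conf D}, Cfg n U → Cfg n U' → ∀ {E : Finset (V D)}
    {Z : V D → Prop}, (∀ x, Z x → U x ≠ flat 0 ∨ U' x ≠ flat 0 ∨ x ∈ E) → ∀ {p q : V D},
    Relation.ReflTransGen (fun v w => Adj v w ∧ Z w) p q → ∀ {M : ℕ}, 1 ≤ M → E.card ≤ M →
    25 * (M : ℝ) ≤ l1 (q - p) → Heavy n U p M ∨ Heavy n U' p M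

def StExch : Prop :=
  ∀ {D : ℕ} (n : ℕ) (ξ : Dis D) {A : V D → Prop} {F U : Conf D},
    (∀ x y, A x → ¬A y → Adj x y → U y = F y) →
    En n ξ (glue A F U) + En n ξ (glue A U F) = En n ξ U + En n ξ F

def StMGlue : Prop :=
  ∀ {D : ℕ} (n : ℕ) (ξ : Dis D) (T : Finset (V D)) (A : V D → V D → Prop) (F : V D → Conf D)
    (U : Conf D), (∀ z ∈ T, ∀ x y, A z x → ¬A z y → Adj x y → U y = F z y) →
    (∀ z ∈ T, ∀ z' ∈ T, z ≠ z' → ∀ x y, A z x → A z' y → x ≠ y ∧ ¬Adj x y) →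
    ∃ G : Conf D, (∀ z ∈ T, ∀ x, A z x → G x = F z x) ∧
      (∀ x, (∀ z ∈ T, ¬A z x) → G x = U x) ∧
      En n ξ G = En n ξ U + ∑ z ∈ T, (En n ξ (F z) - En n ξ (glue (A z) U (F z)))

def StMv : Prop :=
  ∀ {D n n' : ℕ} {c : V D}, CubeIn c n' n →
    (∀ F : Conf D, Cfg n' F → Cfg n (mv c F)) ∧
    (∀ (ξ : Dis D) (F F' : Conf D), Cfg n' F → Cfg n' F' →
      En n ξ (mv c F) - En n ξ (mv c F') = En n' (tr c ξ) F - En n' (tr c ξ) F') ∧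
    ∀ (F : Conf D) (x : V D) (M : ℕ), Cfg n' F → Heavy n (mv c F) x M → Heavy n' F (x - c) M

/-- Separation: the disagreement region grown from `P` stays in `Nb`. -/
def StSep : Prop :=
  ∀ {D n n' : ℕ}, 2 ≤ D → ∀ {c : V D}, CubeIn c n' n → ∀ {U F F' : Conf D}, Cfg n U →
    Cfg n' F → Cfg n' F' → ∀ {E : Finset (V D)}, (∀ x, x ∉ E → F' x = F x) → ∀ {M : ℕ}, 1 ≤ M →
    E.card ≤ M → ∀ {P Nb : V D → Prop}, (∀ x, Nb x → x - c ∈ inB D n') →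
    (∀ p q, P p → ¬Nb q → 25 * (M : ℝ) ≤ l1 (q - p)) →
    (∀ p, P p → ¬Heavy n U p M ∧ ¬Heavy n' F' (p - c) M) →
    ∃ (A : V D → Prop) (W : Conf D), (∀ p, P p → A p) ∧ (∀ x, A x → Nb x) ∧
      (∀ x y, A x → ¬A y → Adj x y → U y = mv c F y) ∧ Cfg n' W ∧
      (∀ x, A x → W (x - c) = U x) ∧ (∀ x, ¬A x → W (x - c) = F (x - c)) ∧
      ∀ ξ : Dis D,
        En n ξ (mv c F) - En n ξ (glue A U (mv c F)) = En n' (tr c ξ) F - En n' (tr c ξ) W ∧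
        En n ξ (glue A (mv c F) U) - En n ξ U = En n' (tr c ξ) F - En n' (tr c ξ) W

/-! ### Profitable shifts from local features -/

def StExc : Prop :=
  ∀ {D n : ℕ}, 2 ≤ D → ∀ {ξ : Dis D}, (∀ x o k, 0 < ξ x o k) → ∀ {U : Conf D}, IsMin n ξ U →
    ∀ {h₀ : ℕ}, 1 ≤ h₀ → ∀ {y : V D}, ¬WinCol (-(2 * h₀ : ℤ)) (2 * h₀) (U y) →
    ∃ C, Closed (Jst n U) C ∧ h₀ ≤ Wt U C ∧ Tour l1 y (bases C) (25 * C.card)

def StGain : Prop :=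
  ∀ {D n : ℕ}, 100 ≤ D → ∀ {a b : ℝ}, 0 < a → a ≤ b → 4 * b ≤ a * D → ∀ {ξ : Dis D},
    TwoV a b ξ →
    (∀ {F : Conf D}, IsMin n ξ F → ∀ y : V D,
      (∀ (h₀ : ℕ) (l h : ℤ), 1 ≤ h₀ → l ≤ -(2 * h₀ : ℤ) → (2 * h₀ : ℤ) ≤ h →
        ¬WinCol l h (F y) → Gain n a ξ y h₀) ∧
      (∀ X₀ : ℕ, X₀ ≤ (dif (F y) (flat 0)).card → Gain n a ξ y X₀) ∧
      (F y ≠ flat 0 → Gain n a ξ y (D ^ 3)) ∧
      ∀ M X₀ : ℕ, Heavy n F y M → 2 * D * X₀ ≤ M → Gain n a ξ y X₀) ∧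
    ∀ {S : Conf D}, Cfg n S → Big (JU n S) → ∀ (v : ℝ) (y : V D) (M m₁ : ℕ),
      En n ξ S ≤ GE n ξ + v → Heavy n S y M → 4 * D * v ≤ a * M → D * m₁ ≤ M →
      GoodAt n a ξ y m₁

def StPert : Prop :=
  ∀ {D n N R : ℕ} [NeZero N], 100 ≤ D → ∀ {a b : ℝ}, 0 < a → a ≤ b → 4 * b ≤ a * D → 4 * R < N →
    b * ((n : ℝ) + 1) ^ D < a * R → ∀ {ω ω' : Ix D n N → Bool},
    (∀ i, ω i = true → ω' i = true) → ∀ e₁ e₂ : Ix D n N,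
    (∀ i, i ≠ e₁ → i ≠ e₂ → ω' i = ω i) → ∀ {y : V D} {X₀ : ℕ}, D ^ 3 ≤ X₀ →
    Gain n a (dis a b ω') y X₀ → GoodAt n a (dis a b ω) y X₀

/-! ### Clipping, shifts, reflections, the four-point inequality -/

def StClip : Prop :=
  ∀ {D n : ℕ} {b : ℝ} {ξ : Dis D}, (∀ x o k, 0 ≤ ξ x o k ∧ ξ x o k ≤ b) → ∀ {l h : ℤ}, l ≤ 0 →
    0 ≤ h → ∀ {U : Conf D}, Cfg n U →
    (∀ T : Finset (V D), (∀ x, ¬WinCol l h (U x) → x ∈ T) →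
      ∃ U', WCl n l h U' ∧ En n ξ U' ≤ En n ξ U + 2 * b * T.card) ∧
    ∀ (P : Finset (V D)) (t : ℕ), (∀ x ∈ P, (dif (U x) (flat 0)).card ≤ t) →
      ∃ S, Cfg n S ∧ WinOn P l h S ∧ (∀ x, x ∉ P → S x = U x) ∧
        En n ξ S ≤ En n ξ U + P.card * (b * (2 + 2 * D * t))

def StShift : Prop :=
  ∀ {D : ℕ} (n : ℕ) (A : Finset (V D)) (l h c : ℤ) (ξ : Dis D),
    Phi n A l h c ξ = Phi n A (l - c) (h - c) 0 (shc c ξ) ∧ GA n c ξ = GE n (shc c ξ) ∧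
    (ViolA n A l h c ξ ↔ ViolA n A (l - c) (h - c) 0 (shc c ξ))

def StMir : Prop :=
  ∀ {D : ℕ} (n : ℕ) (A : Finset (V D)) (l h c v : ℤ) (ξ : Dis D),
    Phi n A l h c (mirD v ξ) = Phi n A (v - h) (v - l) (v - c) ξ ∧
    GA n c (mirD v ξ) = GA n (v - c) ξ ∧
    (ViolA n A l h c (mirD v ξ) ↔ ViolA n A (v - h) (v - l) (v - c) ξ)

def StFour : Prop :=
  ∀ {D n : ℕ} {a b : ℝ}, 0 ≤ a → a ≤ b → ∀ {ξ : Dis D}, TwoV a b ξ → ∀ {A : Finset (V D)},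
    A ⊆ inB D n → ∀ {l h l' h' c c' : ℤ}, l ≤ h → l' ≤ h' → l ≤ l' → h ≤ h' → c ≤ c' →
    Phi n A l' h' c' ξ + Phi n A l h c ξ ≤ Phi n A l h c' ξ + Phi n A l' h' c ξ

/-! ### Plates -/

def StIso : Prop :=
  ∀ {D : ℕ} (A T : Finset (V D)) (B : Finset (Ed D)) (α : ℤ) (ℓ : ℕ), A ⊆ T →
    A ⊆ cube D α (α + ℓ - 1) → (∀ e : Ed D, ¬(e.1 ∈ T ↔ tip e ∈ T) → e ∈ B) →
    2 * D * A.card ≤ ℓ * B.card

def StFlatten : Prop :=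
  ∀ {D n : ℕ}, 1 ≤ D → ∀ {a b : ℝ}, 0 ≤ a → a ≤ b →
    ∀ {ξ : Dis D} {R Pl : Finset (V D)} {α h : ℤ} {ℓ : ℕ}, 1 ≤ h →
    Pl ⊆ cube D α (α + ℓ - 1) → ℓ * (b - a) ≤ 2 * D * b * h →
    (∀ x ∈ R, ∀ o k, ξ x o k = if x ∈ Pl ∧ o = none ∧ k = h then a else b) →
    ∀ {A : V D → Prop} {S : Conf D}, (∀ x, A x → x ∈ inB D n ∧ x ∈ R ∧ ∀ i, x - ee i ∈ R) →
    (∀ x y, A x → ¬A y → Adj x y → S y = flat 0) →
    En n ξ (glue A (fun _ => flat 0) S) ≤ En n ξ S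

def StBump : Prop :=
  ∀ {D n : ℕ} {a b : ℝ} {ξ ξ' : Dis D} {α c h : ℤ} {ℓ : ℕ}, c ≤ h →
    cube D α (α + ℓ - 1) ⊆ inB D n → (∀ x o k, 0 ≤ ξ x o k ∧ ξ x o k ≤ b) →
    (∀ x ∈ cube D α (α + ℓ - 1), ξ x none c = b) →
    (∀ x o k, ξ' x o k = if x ∈ cube D α (α + ℓ - 1) ∧ o = none ∧ k = h then a else ξ x o k) →
    ∀ {F : Conf D}, (∀ x ∈ cube D (α - 1) (α + ℓ), F x = flat c) →
    En n ξ' (glue (fun x => x ∈ cube D α (α + ℓ - 1)) (fun _ => flat h) F) + (b - a) * ℓ ^ D ≤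
      En n ξ F + b * (h - c) * (2 * D * ℓ ^ (D - 1))

/-! ### Nets, supports, clusters -/

def StNet : Prop :=
  ∀ {D : ℕ} {Ω P : Finset (V D)} {j : ℕ} {L ρ : ℝ}, 0 < ρ → MTour l1 id Ω j P L →
    ∃ N ⊆ P, (N.card : ℝ) ≤ j + L / ρ ∧ ∀ p ∈ P, ∃ v ∈ N, l1 (p - v) ≤ ρ

def StSupp : Prop :=
  ∀ {D n : ℕ}, 1 ≤ D → ∀ {s : Fn D}, Supp n s → s.support.card ≤ n * TV s

def StClus1 : Prop :=
  ∀ {D : ℕ} {B : V D → Prop} {lam k₀ : ℕ}, B 0 →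
    ((ball D ((k₀ + 1) * lam)).filter B).card ≤ k₀ →
    0 ∈ clus B lam ((k₀ + 1) * lam) ∧ (clus B lam ((k₀ + 1) * lam)).card ≤ k₀ ∧
    (∀ w ∈ clus B lam ((k₀ + 1) * lam), B w ∧ w ∈ ball D (k₀ * lam)) ∧
    ∀ w ∈ clus B lam ((k₀ + 1) * lam), ∀ v, B v → v - w ∈ ball D lam →
      v ∈ clus B lam ((k₀ + 1) * lam)

/-- Clusters of different roots are far apart. -/
def StClus2 : Prop :=
  ∀ {D : ℕ} {B : V D → Prop} {lam k₀ : ℕ} {z z' : V D}, z ≠ z' →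
    IsRoot (fun w => B (z + w)) lam ((k₀ + 1) * lam) k₀ →
    IsRoot (fun w => B (z' + w)) lam ((k₀ + 1) * lam) k₀ →
    ∀ w ∈ clus (fun w => B (z + w)) lam ((k₀ + 1) * lam),
    ∀ w' ∈ clus (fun w => B (z' + w)) lam ((k₀ + 1) * lam), z' + w' - (z + w) ∉ ball D lam

/-- Every bad block with sparse surroundings lies in the cluster of a root nearby. -/
def StClus3 : Prop :=
  ∀ {D : ℕ} {B : V D → Prop} {lam k₀ : ℕ} {z : V D}, B z →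
    (∀ v ∈ ball D ((k₀ + 1) * lam),
      ((ball D ((k₀ + 1) * lam)).filter fun w => B (z + v + w)).card ≤ k₀) →
    ∃ v ∈ ball D ((k₀ + 1) * lam), IsRoot (fun w => B (z + v + w)) lam ((k₀ + 1) * lam) k₀ ∧
      -v ∈ clus (fun w => B (z + v + w)) lam ((k₀ + 1) * lam)

def StClus4 : Prop :=
  ∀ {D : ℕ} {lam Λ k₀ : ℕ},
    (∀ {B : V D → Prop}, 1 ≤ k₀ → B 0 → (∀ w ∈ ball D Λ, w ≠ 0 → ¬B w) →
      IsRoot B lam Λ k₀ ∧ clus B lam Λ = {0}) ∧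
    ∀ {B B' : V D → Prop}, (∀ w ∈ ball D Λ, B w ↔ B' w) →
      clus B lam Λ = clus B' lam Λ ∧ (IsRoot B lam Λ k₀ ↔ IsRoot B' lam Λ k₀)

/-! ### Probability -/

def StMarg : Prop :=
  ∀ {I I' : Type} [Fintype I] [DecidableEq I] [Fintype I'] [DecidableEq I'] (p : ℝ)
    (ι : I' → I), Function.Injective ι →
    (∀ f : (I' → Bool) → ℝ, Ex p (fun ω : I → Bool => f (ω ∘ ι)) = Ex p f) ∧
    ∀ A : (I' → Bool) → Prop, Pr p (fun ω : I → Bool => A (ω ∘ ι)) = Pr p A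

def StIndep : Prop :=
  ∀ {I : Type} [Fintype I] [DecidableEq I] (p : ℝ),
    (∀ {ι : Type} (T : Finset ι) (A : ι → I → Prop) (f : ι → (I → Bool) → ℝ),
      (∀ z ∈ T, Dep (A z) (f z)) → (∀ z ∈ T, ∀ z' ∈ T, z ≠ z' → ∀ i, A z i → ¬A z' i) →
      Ex p (fun ω => ∏ z ∈ T, f z ω) = ∏ z ∈ T, Ex p (f z)) ∧
    ∀ (A : I → Prop) (E E' : (I → Bool) → Prop), Dep A E → Dep (fun i => ¬A i) E' →
      Pr p (fun ω => E ω ∧ E' ω) = Pr p E * Pr p E'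

def StPat : Prop :=
  ∀ {I : Type} [Fintype I] [DecidableEq I] {p : ℝ}, 0 ≤ p → p ≤ 1 → ∀ S : Finset I,
    (∀ σ : I → Bool, min p (1 - p) ^ S.card ≤ Pr p fun ω => ∀ i ∈ S, ω i = σ i) ∧
    Pr p (fun ω => ∀ i ∈ S, ω i = true) = p ^ S.card

def StColour : Prop :=
  ∀ {I : Type} [Fintype I] [DecidableEq I] {p : ℝ}, 0 ≤ p → p ≤ 1 →
    ∀ {ι κ : Type} (T : Finset ι) (col : ι → κ) (A : ι → I → Prop) (f : ι → (I → Bool) → ℝ)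
      {χ : ℕ} {B Nn lam : ℝ}, 1 ≤ χ → (T.image col).card ≤ χ → 0 < B → 0 < Nn → T.card ≤ Nn →
      0 ≤ lam → (∀ z ∈ T, Dep (A z) (f z)) →
      (∀ z ∈ T, ∀ z' ∈ T, z ≠ z' → col z = col z' → ∀ i, A z i → ¬A z' i) →
      (∀ z ∈ T, ∀ ω, |f z ω| ≤ B) → (∀ z ∈ T, Ex p (f z) = 0) →
      Pr p (fun ω => lam ≤ ∑ z ∈ T, f z ω) ≤ Real.exp (-(lam ^ 2 / (4 * χ ^ 2 * B ^ 2 * Nn)))

def StDense : Prop :=
  ∀ {I : Type} [Fintype I] [DecidableEq I] {p : ℝ}, 0 ≤ p → p ≤ 1 →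
    ∀ {ι κ : Type} (T : Finset ι) (col : ι → κ) (A : ι → I → Prop) (E : ι → (I → Bool) → Prop)
      {χ k : ℕ} {r : ℝ}, (T.image col).card ≤ χ → 0 ≤ r → (∀ z ∈ T, Dep (A z) (E z)) →
      (∀ z ∈ T, ∀ z' ∈ T, z ≠ z' → col z = col z' → ∀ i, A z i → ¬A z' i) →
      (∀ z ∈ T, Pr p (E z) ≤ r) →
      Pr p (fun ω => χ * k < (T.filter fun z => E z ω).card) ≤ (T.card * r) ^ k

/-- Local functionals have the law of the local system. -/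
def StLocal : Prop :=
  ∀ {D n n' N : ℕ} [NeZero N] {c : V D}, CubeIn c n' n → ∀ (a b p : ℝ),
    (∀ f : Dis D → ℝ, (∀ ξ ξ', Agree n' ξ ξ' → f ξ = f ξ') →
      Ex p (fun ω : Ix D n N → Bool => f (tr c (dis a b ω))) =
        Ex p fun ω : Ix D n' N → Bool => f (dis a b ω)) ∧
    ∀ E : Dis D → Prop, (∀ ξ ξ', Agree n' ξ ξ' → (E ξ ↔ E ξ')) →
      Pr p (fun ω : Ix D n N → Bool => E (tr c (dis a b ω))) =
        Pr p fun ω : Ix D n' N → Bool => E (dis a b ω)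

/-- Countable unions and the first-moment bound for counts. -/
def StUnion : Prop :=
  ∀ {I : Type} [Fintype I] [DecidableEq I] {p : ℝ}, 0 ≤ p → p ≤ 1 →
    (∀ (A : ℕ → (I → Bool) → Prop) (c : ℝ), (∀ S : Finset ℕ, ∑ m ∈ S, Pr p (A m) ≤ c) →
      Pr p (fun ω => ∃ m, A m ω) ≤ c) ∧
    (∀ {ι : Type} (T : Finset ι) (E : ι → (I → Bool) → Prop) (r t : ℝ),
      (∀ z ∈ T, Pr p (E z) ≤ r) →
      t * Pr p (fun ω => t ≤ ((T.filter fun z => E z ω).card : ℝ)) ≤ T.card * r) ∧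
    ∀ {ι : Type} (T : Finset ι) (E : ι → (I → Bool) → Prop) (G : (I → Bool) → Prop) (t : ℝ),
      0 ≤ t → (∀ ω, ¬G ω → ((T.filter fun z => E z ω).card : ℝ) ≤ t) →
      ∑ z ∈ T, Pr p (E z) ≤ T.card * Pr p G + t

end

end Pool.Agent.P.MP_67bca4_pr
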