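import Pool.Agent.P.MP_67bca4_pr.AH.A2

/-!
Statements of the lemmas (part two) used for the extension to all heights.
Each is proved in its own file.
-/

namespace Pool.Agent.P.MP_67bca4_pr

open Finset
open scoped Classical

noncomputable section

/-- The overwritten disorder with the plate. -/
def Par.envP {D : ℕ} (P : Par D) (a b : ℝ) (η' : Dis D) : Dis D := fun x o k =>
  if x ∈ P.Pl a b ∧ o = none ∧ k = P.K2 + 1 then a else η' x o k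

/-! ### Local deterministic lemmas -/

def StE2 : Prop :=
  ∀ {D n n' : ℕ}, 100 ≤ D → ∀ {a b : ℝ}, 0 < a → a ≤ b → 4 * b ≤ a * D → ∀ {ξ : Dis D},
    TwoV a b ξ → ∀ {c : V D}, CubeIn c n' n → ∀ {U : Conf D}, IsMin n ξ U →
    ∀ {B : Finset (V D)} {m₁ : ℕ}, 1 ≤ m₁ →
    (∀ p ∈ B, ∀ q, q ∉ inB D n' → ((25 * (D * m₁) : ℕ) : ℝ) ≤ l1 (q - p)) →
    ∀ {x : V D}, x - c ∈ B → ∀ {l h : ℤ}, ¬WinCol l h (U x) →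
    ViolA n' B l h 0 (tr c ξ) ∨ GoodAt n a ξ x m₁ ∨ GoodAt n' a (tr c ξ) (x - c) m₁

def StGp : Prop :=
  ∀ {D : ℕ} {P : Par D} {a b : ℝ}, P.Ok a b → ∀ {η : Dis D}, TwoV a b η → ¬P.RareQ a η →
    ∀ {u : ℤ}, P.Root b u η → -(P.K1 : ℤ) ≤ u → u ≤ P.K2 →
    P.VD b u η ≤ P.B0 b ∧ P.VC b u η ≤ P.B0 b

def StYsym : Prop :=
  ∀ {D : ℕ} {P : Par D} {a b : ℝ}, P.Ok a b → ∀ {η : Dis D}, TwoV a b η → ∀ u : ℤ,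
    0 ≤ P.Y b u η + P.Y b u (mirD u η) ∧
    (P.Ind b u η → b ≤ P.VA b u η + P.VB b u η - P.VC b u η - P.VD b u η →
      b ≤ P.Y b u η + P.Y b u (mirD u η)) ∧
    P.Y b u η = P.swap.Y b (-u) (mirD 0 η)

def StPlantE : Prop :=
  ∀ {D : ℕ} {P : Par D} {a b : ℝ}, P.Ok a b → ∀ {η η' : Dis D}, P.Ovw b η η' →
    P.Planted a b η →
    P.Pl a b ⊆ P.Rpl ∧ P.Rpl ⊆ P.nb P.r {0} ∧ (P.Pl a b).card = P.ell a b ^ D ∧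
    (∀ (U : Conf D) (l h : ℤ), -(2 * P.K + 2 : ℤ) ≤ l → h ≤ 2 * P.K + 2 →
      WinOn (P.nb P.r {0}) l h U → En P.nQ η U = En P.nQ (P.envP a b η') U) ∧
    (∀ U : Conf D, (∀ x ∈ P.Pl a b, (P.K2 + 1 : ℤ) ∉ bd (U x)) →
      En P.nQ (P.envP a b η') U = En P.nQ η' U) ∧
    ∀ U : Conf D, En P.nQ η' U ≤ En P.nQ (P.envP a b η') U + (b - a) * P.ell a b ^ D

def StPlant0 : Prop :=
  ∀ {D : ℕ} {P : Par D} {a b : ℝ}, P.Ok a b → ∀ {η η' : Dis D}, TwoV a b η → TwoV a b η' →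
    P.Ovw b η η' → P.Planted a b η → P.DGood a η' →
    Phi P.nQ (P.nb P.r {0}) (-P.K1) P.K2 0 η ≤ Phi P.nQ (P.nb P.r {0}) (-P.K1) (P.K2 + 1) 0 η

def StPlant1 : Prop :=
  ∀ {D : ℕ} {P : Par D} {a b : ℝ}, P.Ok a b → ∀ {η η' : Dis D}, TwoV a b η → TwoV a b η' →
    P.Ovw b η η' → P.Planted a b η → P.DGood a η' →
    Phi P.nQ (P.nb P.r {0}) (-P.K1) (P.K2 + 1) 1 η + b ≤ Phi P.nQ (P.nb P.r {0}) (-P.K1) P.K2 1 η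

def StPlant : Prop :=
  ∀ {D : ℕ} {P : Par D} {a b : ℝ}, P.Ok a b → ∀ {η η' : Dis D}, TwoV a b η → TwoV a b η' →
    P.Ovw b η η' → P.Planted a b η → P.DGood a η' → ∀ {u : ℤ}, 1 ≤ u → P.us + 1 ≤ u →
    P.Kl b u η = {0} → b ≤ P.VA b u η + P.VB b u η - P.VC b u η - P.VD b u η

/-! ### Local probabilities and means -/

def StPBad : Prop :=
  ∀ {D : ℕ} {P : Par D} {a b : ℝ}, P.Ok a b → ∀ {p : ℝ}, 0 ≤ p → p ≤ 1 → Tail1 D a b p →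
    ∀ {n N R : ℕ} [NeZero N], P.NR a b n N R → ∀ {c : V D}, CubeIn c P.nL n → ∀ u : ℤ,
    Pr p (fun ω : Ix D n N → Bool => P.badL b u (tr c (dis a b ω))) ≤ P.rhoB p

def StPRare : Prop :=
  ∀ {D : ℕ} {P : Par D} {a b : ℝ}, P.Ok a b → ∀ {p : ℝ}, 0 ≤ p → p ≤ 1 → Tail1 D a b p →
    ∀ {n N R : ℕ} [NeZero N], P.NR a b n N R → ∀ {c : V D}, CubeIn c P.nQ n →
    Pr p (fun ω : Ix D n N → Bool => P.RareQ a (tr c (dis a b ω))) ≤ P.piR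

def StPSp : Prop :=
  ∀ {D : ℕ} {P : Par D} {a b : ℝ}, P.Ok a b → ∀ {p : ℝ}, 0 ≤ p → p ≤ 1 → Tail1 D a b p →
    ∀ {n N R : ℕ} [NeZero N], P.NR a b n N R → ∀ v : V D,
    Pr p (fun ω : Ix D n N → Bool => P.Sp a b n (dis a b ω) v) ≤ P.piS p

def StPPlant : Prop :=
  ∀ {D : ℕ} {P : Par D} {a b : ℝ}, P.Ok a b → ∀ {p : ℝ}, 0 ≤ p → p ≤ 1 → Tail1 D a b p →
    ∀ {N R : ℕ} [NeZero N], P.NR a b P.nQ N R →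
    (2 * P.Lam + 1) ^ D * P.rhoB p + 2 * P.nQ ^ D * Real.exp (-√(P.h0 : ℝ)) ≤ 1 / 32 →
    ∀ u : ℤ, P.kap0 p / 2 ≤ Pr p fun ω : Ix D P.nQ N → Bool =>
      P.Planted a b (dis a b ω) ∧ (∀ w ∈ ball D P.Lam, w ≠ 0 → ¬P.BadQ b u (dis a b ω) w) ∧
        P.DGood a (dis a b (ovr P.Rpl ω))

def StMean0 : Prop :=
  ∀ {D : ℕ} {P : Par D} {a b : ℝ}, P.Ok a b → ∀ {p : ℝ}, 0 ≤ p → p ≤ 1 →
    ∀ (N : ℕ) [NeZero N], P.mY a b p N 0 = 0 ∧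
      ∀ u : ℤ, 0 ≤ P.mY a b p N u ∧ P.mY a b p N u = P.swap.mY a b p N (-u)

def StMean1 : Prop :=
  ∀ {D : ℕ} {P : Par D} {a b : ℝ}, P.Ok a b → ∀ {p : ℝ}, 0 ≤ p → p ≤ 1 → Tail1 D a b p →
    ∀ {N R : ℕ} [NeZero N], P.NR a b P.nQ N R →
    (2 * P.Lam + 1) ^ D * P.rhoB p + 2 * P.nQ ^ D * Real.exp (-√(P.h0 : ℝ)) ≤ 1 / 32 →
    P.piR ≤ P.kap0 p / 4 → ∀ {u : ℤ}, 1 ≤ u → P.us + 1 ≤ u → u ≤ P.K2 →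
    P.kap b p ≤ P.mY a b p N u

def StMean : Prop :=
  ∀ {D : ℕ} {P : Par D} {a b : ℝ}, P.Ok a b → ∀ {p : ℝ}, 0 ≤ p → p ≤ 1 → Tail1 D a b p →
    ∀ {N R : ℕ} [NeZero N], P.NR a b P.nQ N R →
    (2 * P.Lam + 1) ^ D * P.rhoB p + 2 * P.nQ ^ D * Real.exp (-√(P.h0 : ℝ)) ≤ 1 / 32 →
    P.piR ≤ P.kap0 p / 4 → ∀ u : ℤ, -(P.K1 : ℤ) ≤ u → u ≤ P.K2 → u ≠ 0 → u ≠ P.us →
    P.kap b p ≤ P.mY a b p N u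

/-! ### The centred sum along chains -/

def StYtail : Prop :=
  ∀ {D : ℕ} {P : Par D} {a b : ℝ}, P.Ok a b → ∀ {p : ℝ}, 0 ≤ p → p ≤ 1 →
    ∀ (n N : ℕ) [NeZero N] (t t' : Fn D) {Nn lam : ℝ}, 0 < Nn →
    ((t' - t).support.card : ℝ) ≤ Nn → 0 ≤ lam →
    Pr p (fun ω : Ix D n N → Bool => lam ≤ P.Ybar b (P.mY a b p N) n (dis a b ω) t' -
        P.Ybar b (P.mY a b p N) n (dis a b ω) t) ≤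
      Real.exp (-(lam ^ 2 / (4 * (((P.nQ : ℝ) + 1) ^ D) ^ 2 * (8 * P.B0 b) ^ 2 * Nn)))

def StNumY : Prop :=
  ∀ {D : ℕ}, 100 ≤ D → ∀ {Γ W ν ν' : ℝ} {m l : ℕ}, 1 ≤ Γ → 1 ≤ l → 240 * D ^ 2 * Γ ≤ 2 ^ l →
    2 ^ (l * (D - 2)) ≤ m → 0 ≤ W → W * Real.exp (-(2 ^ l)) ≤ m →
    2 ^ (l * (D - 2)) ≤ ν → 2 ^ (l * (D - 2)) ≤ ν' →
    ent D m l + ent D m (l + 1) + 2 ^ (l * (D - 2)) / (8 * 16 ^ l * Γ) * m / ν +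
      2 ^ (l * (D - 2)) / (8 * 16 ^ l * Γ) * m / ν' +
      12 * W * Real.exp (-(2 ^ (l * (D - 2)) / (8 * 16 ^ l * Γ))) - m / (16 ^ l * Γ) ≤
      -(2 * √(m : ℝ))

def StYchain : Prop :=
  ∀ {D : ℕ} {P : Par D} {a b : ℝ}, P.Ok a b → ∀ {p : ℝ}, 0 ≤ p → p ≤ 1 →
    ∀ (n N m₀ : ℕ) [NeZero N], 2000 ≤ m₀ → 240 * D ^ 2 * P.Gam a b ≤ 2 ^ P.l0 →
    ((n : ℝ) + 1) ^ D * Real.exp (-(2 ^ P.l0)) ≤ m₀ →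
    Pr p (fun ω : Ix D n N → Bool => P.YEv a b (P.mY a b p N) n m₀ (dis a b ω)) ≤
      Real.exp (-√(m₀ : ℝ))

def StYlow : Prop :=
  ∀ {D : ℕ} {P : Par D} {a b : ℝ}, P.Ok a b → ∀ {mY : ℤ → ℝ}, mY 0 = 0 →
    ∀ {n m₀ m : ℕ} {ξ : Dis D} {t : ℕ → Fn D} {Q : Finset (V D)}, m₀ ≤ m →
    (∀ l, LevM n (hatB D n) P.mu m l (t l)) →
    (∀ l, PackM n (hatB D n) P.mu m (2 ^ l) (t l) (t (l + 1) - t l).support Q) →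
    (∀ l, m < 2 ^ (l * (D - 2)) → t l = 0) → ¬P.YEv a b mY n m₀ ξ →
    -(a * m / 16) ≤ P.Ybar b mY n ξ (t P.l0) ∧
      ∀ x, t 0 x ≠ t P.l0 x → ∃ p ∈ Q, l1 (x - p) ≤ 7 * D * 2 ^ P.l0

/-! ### The global deterministic argument -/

def StData : Prop :=
  ∀ {D : ℕ} {P : Par D} {a b : ℝ}, P.Ok a b → ∀ (n : ℕ) {ξ : Dis D}, TwoV a b ξ →
    ∃ (U U' : Conf D) (C : Finset (Ed D)) (s : Fn D), P.GD a n ξ U U' C s ∧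
      (∃ j : ℕ, j * P.M ≤ C.card ∧ MTour l1 id (hatB D n) j (bases C) (50 * C.card)) ∧
      C.card ≤ 2 * D * Xs n U C ∧ TV s ≤ 2 * Xs n U C ∧
      ∀ m, 2 * Xs n U C ≤ m → AdmJ n (hatB D n) P.mu s m (JU n U ∩ C)

def StPure : Prop :=
  ∀ {D : ℕ} {P : Par D} {a b : ℝ}, P.Ok a b → ∀ {n : ℕ} {ξ : Dis D} {U U' : Conf D}
    {C : Finset (Ed D)} {s : Fn D}, P.GD a n ξ U U' C s → ∀ {t : V D → ℤ} {z : V D},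
    P.Pure n C s t z →
    (∀ x, x - P.cQ z ∈ hatB D P.nQ → s x = t (P.cB z) ∧ U' x = sh (s x) (U x)) ∧
      -(P.K1 : ℤ) ≤ t (P.cB z) ∧ t (P.cB z) ≤ P.K2

def StSepZ : Prop :=
  ∀ {D : ℕ} {P : Par D} {a b : ℝ}, P.Ok a b → ∀ {n : ℕ} {ξ : Dis D} {U U' : Conf D}
    {C : Finset (Ed D)} {s : Fn D}, P.GD a n ξ U U' C s → ∀ {t : V D → ℤ},
    ∀ z ∈ P.ZZ a b n ξ C s t, ∀ z' ∈ P.ZZ a b n ξ C s t, z ≠ z' → ∀ x y,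
      x - P.cQ z ∈ P.nb (2 * P.r) (P.Kl b (t (P.cB z)) (tr (P.cQ z) ξ)) →
      y - P.cQ z' ∈ P.nb (2 * P.r) (P.Kl b (t (P.cB z')) (tr (P.cQ z') ξ)) →
      x ≠ y ∧ ¬Adj x y

def StLow : Prop :=
  ∀ {D : ℕ} {P : Par D} {a b : ℝ}, P.Ok a b → ∀ {n : ℕ} {ξ : Dis D}, TwoV a b ξ →
    ∀ {U U' : Conf D} {C : Finset (Ed D)} {s : Fn D}, P.GD a n ξ U U' C s → ∀ t : V D → ℤ,
    GE n (shift s ξ) + ∑ z ∈ P.ZZ a b n ξ C s t, P.VA b (t (P.cB z)) (tr (P.cQ z) ξ) ≤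
      En n (shift s ξ) U'

def StUp : Prop :=
  ∀ {D : ℕ} {P : Par D} {a b : ℝ}, P.Ok a b → ∀ {n : ℕ} {ξ : Dis D}, TwoV a b ξ →
    ∀ {U U' : Conf D} {C : Finset (Ed D)} {s : Fn D}, P.GD a n ξ U U' C s → ∀ (t : V D → ℤ)
    {F : Conf D}, IsMin n ξ F →
    En n ξ U ≤ GE n ξ + ∑ z ∈ P.ZZ a b n ξ C s t, P.VD b (t (P.cB z)) (tr (P.cQ z) ξ) +
      2 * b * (P.Unc a b n ξ C s t F).card

def StCover : Prop :=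
  ∀ {D : ℕ} {P : Par D} {a b : ℝ}, P.Ok a b → ∀ {n : ℕ} {ξ : Dis D}, TwoV a b ξ →
    ∀ {U U' : Conf D} {C : Finset (Ed D)} {s : Fn D}, P.GD a n ξ U U' C s → ∀ (t : V D → ℤ)
    {F : Conf D}, IsMin n ξ F →
    (∀ x ∈ P.Unc a b n ξ C s t F, P.blk x ∈ P.ZD n → P.Prob a b n ξ C s t (P.blk x)) ∧
    (∀ x ∈ P.Unc a b n ξ C s t F, P.blk x ∉ P.ZD n → x ∈ P.BL n ∧ GoodAt n a ξ x P.h0) ∧
    ∀ z ∈ P.ZQ n, z ∉ P.ZZ a b n ξ C s t → P.Y b (t (P.cB z)) (tr (P.cQ z) ξ) ≠ 0 →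
      P.Prob a b n ξ C s t z

def StImp : Prop :=
  ∀ {D : ℕ} (P : Par D) {n : ℕ} {C : Finset (Ed D)} {s t : V D → ℤ},
    (∀ x, s x ≠ t x → ∃ p ∈ bases C, l1 (x - p) ≤ 7 * D * 2 ^ P.l0) →
    ∀ z ∈ P.ZQ n, ¬P.Pure n C s t z → ∃ p ∈ bases C, l1 (P.cB z - p) ≤ P.R1

def StCountP : Prop :=
  ∀ {D : ℕ} {P : Par D} {a b : ℝ}, P.Ok a b → ∀ {n : ℕ} (ξ : Dis D) {C : Finset (Ed D)},
    C ⊆ edB D n → ∀ {s t : V D → ℤ},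
    (∀ x, s x ≠ t x → ∃ p ∈ bases C, l1 (x - p) ≤ 7 * D * 2 ^ P.l0) →
    ∀ {Ω : Finset (V D)} {j : ℕ} {L : ℝ}, MTour l1 id Ω j (bases C) L →
    (((P.ZQ n).filter (P.Prob a b n ξ C s t)).card : ℝ) ≤
      (2 * P.K + 1) * P.k0 * (j + L / P.mu) +
        2 * (2 * P.rs + 1) ^ D * ((hatB D n).filter (P.Sp a b n ξ)).card

def StIneq : Prop :=
  ∀ {D : ℕ} {P : Par D} {a b : ℝ}, P.Ok a b → ∀ {n : ℕ} {ξ : Dis D}, TwoV a b ξ →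
    ∀ {mY : ℤ → ℝ} {κ : ℝ}, 0 ≤ κ → mY 0 = 0 → (∀ u, 0 ≤ mY u) →
    (∀ u : ℤ, -(P.K1 : ℤ) ≤ u → u ≤ P.K2 → u ≠ 0 → u ≠ P.us → κ ≤ mY u) →
    ∀ {m₀ : ℕ}, 1 ≤ m₀ → (¬∃ s m, m₀ ≤ m ∧ GoodM n a ξ (hatB D n) P.mu s m) →
    ¬P.YEv a b mY n m₀ ξ →
    2 * P.B1 b * (2 * P.rs + 1) ^ D * ((hatB D n).filter (P.Sp a b n ξ)).card +
      2 * b * ((P.BL n).filter fun x => GoodAt n a ξ x P.h0).card ≤ a * m₀ / 8 →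
    ∃ (U U' : Conf D) (C : Finset (Ed D)) (s : Fn D) (t : V D → ℤ), P.GD a n ξ U U' C s ∧
      C.card ≤ D * m₀ ∧ TV s ≤ m₀ ∧
      (∀ x, s x ≠ t x → ∃ p ∈ bases C, l1 (x - p) ≤ 7 * D * 2 ^ P.l0) ∧
      κ * ((P.ZQ n).filter fun z => -(P.K1 : ℤ) ≤ t (P.cB z) ∧ t (P.cB z) ≤ P.K2 ∧
        t (P.cB z) ≠ 0 ∧ t (P.cB z) ≠ P.us).card ≤ a * m₀ / 2

def StNiceP : Prop :=
  ∀ {D : ℕ} {P : Par D} {a b : ℝ}, P.Ok a b → ∀ {n : ℕ} {ξ : Dis D}, TwoV a b ξ →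
    ∀ {U U' : Conf D} {C : Finset (Ed D)} {s : Fn D}, P.GD a n ξ U U' C s → ∀ {t : V D → ℤ}
    {x : V D}, P.Pure n C s t (P.blk x) →
    (t (P.cB (P.blk x)) = 0 ∨ t (P.cB (P.blk x)) = P.us) → P.Nice n ξ x

def StDet : Prop :=
  ∀ {D : ℕ} {P : Par D} {a b : ℝ}, P.Ok a b → ∀ {n : ℕ} {ξ : Dis D}, TwoV a b ξ →
    ∀ {mY : ℤ → ℝ} {κ : ℝ}, 0 ≤ κ → mY 0 = 0 → (∀ u, 0 ≤ mY u) →
    (∀ u : ℤ, -(P.K1 : ℤ) ≤ u → u ≤ P.K2 → u ≠ 0 → u ≠ P.us → κ ≤ mY u) →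
    ∀ {m₀ : ℕ}, 1 ≤ m₀ → (¬∃ s m, m₀ ≤ m ∧ GoodM n a ξ (hatB D n) P.mu s m) →
    ¬P.YEv a b mY n m₀ ξ →
    2 * P.B1 b * (2 * P.rs + 1) ^ D * ((hatB D n).filter (P.Sp a b n ξ)).card +
      2 * b * ((P.BL n).filter fun x => GoodAt n a ξ x P.h0).card ≤ a * m₀ / 8 →
    ∃ Nx : ℕ, ((inB D n).filter fun x => ¬P.Nice n ξ x).card ≤
        (P.BL n).card + D * m₀ * (2 * P.R4 + 1) ^ D + Nx ∧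
      Nx ≤ n * m₀ ∧ κ * Nx ≤ P.r0 ^ D * (a * m₀ / 2)

def StBL : Prop :=
  ∀ {D : ℕ} (P : Par D) (n : ℕ), (P.BL n).card ≤ 2 * D * P.R3 * (n + 1) ^ (D - 1)

/-! ### The probabilistic conclusion -/

def StGlob : Prop :=
  ∀ {D : ℕ} {P : Par D} {a b : ℝ}, P.Ok a b → ∀ {p C₁ η : ℝ}, 0 < p → p < 1 → 0 < η →
    TailM D C₁ a b p → Tail1 D a b p → ∀ {n N R m₀ : ℕ} [NeZero N], P.NR a b n N R →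
    P.Num a b p C₁ η n m₀ →
    ∑ x ∈ inB D n, Pr p (fun ω : Ix D n N → Bool => ¬P.Nice n (dis a b ω) x) ≤ 6 * η * n ^ D

def StLG : Prop :=
  ∀ {D : ℕ} {P : Par D} {a b : ℝ}, P.Ok a b → ∀ {p : ℝ}, 0 ≤ p → p ≤ 1 → Tail1 D a b p →
    ∀ {N R : ℕ} [NeZero N], P.NR a b P.nQ N R →
    2 * P.nQ ^ D * Real.exp (-√(P.h0 : ℝ)) ≤ 1 / 32 →
    ∀ {I : Type} [Fintype I] [DecidableEq I] (ι : Ix D P.nQ N → I), Function.Injective ι →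
    ∀ (e₁ e₂ : I) {l h : ℤ}, l ≤ -(2 * P.h0 : ℤ) → (2 * P.h0 : ℤ) ≤ h → ∀ x : V D,
    Pr p (fun ω : I → Bool => ¬P.LG0 l h
      (dis a b (Function.update (Function.update ω e₁ true) e₂ true ∘ ι)) x) ≤ 1 / 16

def StSand : Prop :=
  ∀ {D n H : ℕ}, 1 ≤ H → ∀ {a b : ℝ}, 0 ≤ a → a ≤ b → ∀ {ξ : Dis D}, TwoV a b ξ →
    ∀ {lo hi : ℤ}, lo = ((H : ℤ) - 1) / 2 → hi = (H : ℤ) / 2 → ∀ {G₁ G₂ : Conf D},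
    IsMinC n (shc lo ξ) (WCl n (-lo) hi) G₁ → IsMinC n (shc hi ξ) (WCl n (-hi) lo) G₂ →
    ∀ {x : V D}, (G₁ x = flat 0 ∨ G₁ x = flat (hi - lo)) →
    (G₂ x = flat 0 ∨ G₂ x = flat (lo - hi)) →
    ∃ U, IsMinC n ξ (Slab n H) U ∧ (U x = flat lo ∨ U x = flat hi)

def StMid : Prop :=
  ∀ {D : ℕ} {P : Par D} {a b : ℝ}, P.Ok a b → ∀ {p : ℝ}, 0 < p → p < 1 → Tail1 D a b p →
    ∀ {n N R H : ℕ} [NeZero N], P.NR a b n N R → 1 ≤ n → H < N → P.K1 = (H - 1) / 2 →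
    P.K2 = H / 2 → 2 * P.nQ ^ D * Real.exp (-√(P.h0 : ℝ)) ≤ 1 / 32 →
    ∑ x ∈ inB D n, Pr p (fun ω : Ix D n N → Bool => ¬P.Nice n (dis a b ω) x) ≤
      p ^ 2 / 16 * ((n : ℝ) - 1) ^ D →
    ∑ x ∈ inB D n, Pr p (fun ω : Ix D n N → Bool => ¬P.swap.Nice n (dis a b ω) x) ≤
      p ^ 2 / 16 * ((n : ℝ) - 1) ^ D →
    p * (1 - p) * (p * (b - a) / 4) ^ 2 * (((n : ℝ) - 1) ^ D / 2) ≤
      Vr p fun ω : Ix D n N → Bool => GEc n (dis a b ω) (Slab n H)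

def StLowH : Prop :=
  ∀ {D n N H : ℕ} [NeZero N], 1 ≤ n → 1 ≤ H → H < N → ∀ {a b p : ℝ}, 0 < a → a < b → 0 ≤ p →
    p ≤ 1 →
    p * (1 - p) * ((b - a) * p ^ H / H) ^ 2 * ((n : ℝ) - 1) ^ D ≤
      Vr p fun ω : Ix D n N → Bool => GEc n (dis a b ω) (Slab n H)

def StOne : Prop :=
  ∀ {D N H : ℕ} [NeZero N], 1 ≤ D → 1 ≤ H → H < N → ∀ {a b p : ℝ}, 0 < a → a < b → 0 ≤ p →
    p ≤ 1 → p * (1 - p) * (p * (b - a) / 4) ^ 2 ≤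
      Vr p fun ω : Ix D 1 N → Bool => GEc 1 (dis a b ω) (Slab 1 H)

/-! ### Choice of the scales -/

def StParN : Prop :=
  ∀ {D : ℕ}, 100 ≤ D → ∀ {η : ℝ}, 0 < η → η ≤ 1 → ∃ c : ℕ, ∀ (P : Par D) {a b p C₁ : ℝ},
    0 < a → 0 < b → 0 < p → p < 1 → 0 ≤ C₁ → P.NumK a b p C₁ η → ∀ n : ℕ,
    c * (P.nQ + P.R3 + (2 * P.R4 + 1) ^ D) ≤ n → ∃ m₀, P.Num a b p C₁ η n m₀

def StParK : Prop :=
  ∀ {D : ℕ}, 100 ≤ D → ∀ {a b p C₁ η : ℝ}, 0 < a → a < b → 4 * b ≤ a * D → 0 < p → p < 1 →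
    1 ≤ C₁ → 0 < η → η ≤ 1 → ∃ e K₀ : ℕ, ∀ K ≥ K₀, ∀ K1 K2 : ℕ, K1 ≤ K → K2 ≤ K →
      K ≤ K1 + 1 → K ≤ K2 + 1 → ∃ P : Par D, P.K1 = K1 ∧ P.K2 = K2 ∧ P.K = K ∧ P.Ok a b ∧
        P.NumK a b p C₁ η ∧ P.nQ + P.R3 + (2 * P.R4 + 1) ^ D ≤ K ^ e

def StGrow : Prop :=
  ∀ (C : ℝ) (c e : ℕ), ∃ H₀ : ℕ, ∀ n H : ℕ, H₀ ≤ H → 2 ≤ n → (H : ℝ) < C * Real.log n ^ 2 →
    c * H ^ e ≤ n

end

end Pool.Agent.P.MP_67bca4_pr
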