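import Pool.Agent.P.MP_67bca4_pr.AH.D1

/-!
Tours with several roots: the basic operations.
-/

namespace Pool.Agent.P.MP_67bca4_pr

open Finset
open scoped Classical

variable {D : ℕ}

variable {c : V D → ℝ} {φ : V D → V D} {Ω P : Finset (V D)} {j : ℕ} {L : ℝ}

theorem Tour.nonneg {r : V D} (h : Tour l1 r P L) : 0 ≤ L := by
  obtain ⟨w, -, h2⟩ := h
  exact (tourL_nonneg w r).trans h2

lemma wcost_append (r : V D) (w w' : List (V D)) :
    wcost c r (w ++ w') = wcost c r w + wcost c (w.getLastD r) w' := by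
  induction w generalizing r with
  | nil => simp [wcost]
  | cons a w ih =>
    simp only [List.cons_append, wcost, ih, List.getLastD_cons]
    ring

lemma l1_getLastD (r : V D) (w : List (V D)) : l1 (w.getLastD r - r) ≤ wcost l1 r w := by
  induction w generalizing r with
  | nil => simp [wcost]
  | cons a w ih =>
    have h1 := ih a
    have h2 := l1_sub_le (w.getLastD a) a r
    simp only [wcost, List.getLastD_cons]
    linarith

lemma l1_le_wcost {r p : V D} {w : List (V D)} (h : p ∈ r :: w) : l1 (p - r) ≤ wcost l1 r w := by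
  induction w generalizing r with
  | nil =>
    obtain rfl : p = r := by simpa using h
    simp [wcost]
  | cons a w ih =>
    rcases List.mem_cons.1 h with rfl | h
    · simpa using tourL_nonneg (a :: w) p
    · have h1 := ih h
      have h2 := l1_sub_le p a r
      simp only [wcost]
      linarith

/-- A visited point is not farther than the length of the tour. -/
theorem Tour.dist_le {r p : V D} (h : Tour l1 r P L) (hp : p ∈ P) : l1 (p - r) ≤ L := by
  obtain ⟨w, h1, h2⟩ := h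
  exact (l1_le_wcost (h1 p hp)).trans h2

/-- Two tours from the same root. -/
theorem Tour.concat {r : V D} {P' : Finset (V D)} {L' : ℝ} (h : Tour l1 r P L)
    (h' : Tour l1 r P' L') : Tour l1 r (P ∪ P') (L + 2 * L') := by
  obtain ⟨w, h1, h2⟩ := h
  obtain ⟨w', h3, h4⟩ := h'
  refine ⟨w' ++ r :: w, fun p hp => ?_, ?_⟩
  · rcases mem_union.1 hp with hp | hp
    · exact List.mem_cons_of_mem _ (List.mem_append_right _ (h1 p hp))
    · rcases List.mem_cons.1 (h3 p hp) with rfl | hp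
      · exact List.mem_cons_self
      · exact List.mem_cons_of_mem _ (List.mem_append_left _ hp)
  · rw [wcost_append]
    have := l1_getLastD r w'
    rw [l1_sub_comm] at this
    simp only [wcost]
    linarith

/-- A tour attached at a visited point. -/
theorem Tour.attach {r q : V D} {P' : Finset (V D)} {L' : ℝ} (h : Tour l1 r P L) (hq : q ∈ P)
    (h' : Tour l1 q P' L') : Tour l1 r (P ∪ P') (L + 2 * L') := by
  obtain ⟨w, h1, h2⟩ := h
  have key : ∀ (w : List (V D)) (r : V D), q ∈ r :: w →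
      Tour l1 r ((r :: w).toFinset ∪ P') (wcost l1 r w + 2 * L') := by
    intro w
    induction w with
    | nil =>
      intro r hr
      obtain rfl : q = r := by simpa using hr
      exact Tour.concat ⟨[], by simp, le_rfl⟩ h'
    | cons a w ih =>
      intro r hr
      rcases List.mem_cons.1 hr with rfl | hr
      · exact Tour.concat ⟨a :: w, by simp, le_rfl⟩ h'
      · obtain ⟨w', h3, h4⟩ := ih a hr
        refine ⟨a :: w', fun p hp => ?_, ?_⟩
        · rcases mem_union.1 hp with hp | hp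
          · rcases List.mem_cons.1 (List.mem_toFinset.1 hp) with rfl | hp
            · exact List.mem_cons_self
            · exact List.mem_cons_of_mem _ (h3 p (mem_union_left _ (List.mem_toFinset.2 hp)))
          · exact List.mem_cons_of_mem _ (h3 p (mem_union_right _ hp))
        · simp only [wcost]
          linarith
  refine (key w r (h1 q hq)).mono (union_subset_union_left fun p hp => ?_) (by linarith)
  exact List.mem_toFinset.2 (h1 p hp)

theorem MTour.mono {P' : Finset (V D)} {L' : ℝ} (h : MTour c φ Ω j P L) (hP : P' ⊆ P)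
    (hL : L ≤ L') : MTour c φ Ω j P' L' := by
  obtain ⟨R, Q, ℓ, h1, h2, h3, h4, h5⟩ := h
  exact ⟨R, Q, ℓ, h1, h2, h3, h4.trans hL, fun p hp => h5 p (hP hp)⟩

theorem MTour.mono_j {j' : ℕ} (h : MTour c φ Ω j P L) (hj : j ≤ j') : MTour c φ Ω j' P L := by
  obtain ⟨R, Q, ℓ, h1, h2, h3, h4, h5⟩ := h
  exact ⟨R, Q, ℓ, h1, h2.trans hj, h3, h4, h5⟩

theorem MTour.empty : MTour c φ Ω 0 ∅ 0 :=
  ⟨∅, fun _ => ∅, fun _ => 0, empty_subset _, le_rfl, by simp, by simp, by simp⟩

theorem MTour.single {r : V D} (h : Tour c r P L) : MTour c id {r} 1 P L :=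
  ⟨{r}, fun _ => P, fun _ => L, Subset.rfl, by simp, by simpa using h, by simp, by simp⟩

theorem MTour.nonneg (h : MTour l1 φ Ω j P L) : 0 ≤ L := by
  obtain ⟨R, Q, ℓ, -, -, h3, h4, -⟩ := h
  exact (sum_nonneg fun r hr => (h3 r hr).nonneg).trans h4

/-- Insert a detour to `p` at a visited point `q`. -/
theorem MTour.insert (hc : ∀ v, c (-v) = c v) (h : MTour c φ Ω j P L) {p q : V D} (hq : q ∈ P) :
    MTour c φ Ω j (insert p P) (L + 2 * c (p - q)) := by
  obtain ⟨R, Q, ℓ, h1, h2, h3, h4, h5⟩ := h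
  obtain ⟨r, hr, hqr⟩ := h5 q hq
  refine ⟨R, Function.update Q r (Insert.insert p (Q r)),
    Function.update ℓ r (ℓ r + 2 * c (p - q)), h1, h2, fun r' hr' => ?_, ?_, fun x hx => ?_⟩
  · by_cases e : r' = r
    · subst e
      simpa using (h3 r' hr').insert hc hqr
    · simpa [e] using h3 r' hr'
  · rw [sum_update_of_mem hr]
    rw [← add_sum_erase R ℓ hr, ← sdiff_singleton_eq_erase] at h4
    linarith
  · rcases mem_insert.1 hx with rfl | hx
    · exact ⟨r, hr, by simp⟩
    · obtain ⟨r', hr', h6⟩ := h5 x hx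
      refine ⟨r', hr', ?_⟩
      by_cases e : r' = r
      · subst e; simp [h6]
      · simpa [e] using h6

/-- Add a further tour rooted in `Ω`. -/
theorem MTour.add {P' : Finset (V D)} {L' : ℝ} (h : MTour l1 φ Ω j P L) {y : V D} (hy : y ∈ Ω)
    (h' : Tour l1 (φ y) P' L') : MTour l1 φ Ω (j + 1) (P ∪ P') (L + 2 * L') := by
  obtain ⟨R, Q, ℓ, h1, h2, h3, h4, h5⟩ := h
  have hL := h'.nonneg
  by_cases hyR : y ∈ R
  · refine ⟨R, Function.update Q y (Q y ∪ P'), Function.update ℓ y (ℓ y + 2 * L'), h1, by omega,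
      fun r' hr' => ?_, ?_, fun x hx => ?_⟩
    · by_cases e : r' = y
      · subst e
        simpa using (h3 r' hr').concat h'
      · simpa [e] using h3 r' hr'
    · rw [sum_update_of_mem hyR]
      rw [← add_sum_erase R ℓ hyR, ← sdiff_singleton_eq_erase] at h4
      linarith
    · rcases mem_union.1 hx with hx | hx
      · obtain ⟨r', hr', h6⟩ := h5 x hx
        refine ⟨r', hr', ?_⟩
        by_cases e : r' = y
        · subst e; simp [h6]
        · simpa [e] using h6
      · exact ⟨y, hyR, by simp [hx]⟩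
  · refine ⟨Insert.insert y R, Function.update Q y P', Function.update ℓ y L',
      insert_subset hy h1, by rw [card_insert_of_notMem hyR]; omega, fun r' hr' => ?_, ?_,
      fun x hx => ?_⟩
    · by_cases e : r' = y
      · subst e
        simpa using h'
      · simpa [e] using h3 r' ((mem_insert.1 hr').resolve_left e)
    · rw [sum_insert hyR, Function.update_self,
        sum_congr rfl fun r hr => Function.update_of_ne (ne_of_mem_of_not_mem hr hyR) _ _]
      linarith
    · rcases mem_union.1 hx with hx | hx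
      · obtain ⟨r', hr', h6⟩ := h5 x hx
        exact ⟨r', mem_insert_of_mem hr', by
          simpa [ne_of_mem_of_not_mem hr' hyR] using h6⟩
      · exact ⟨y, mem_insert_self _ _, by simp [hx]⟩

/-- Growth along a connected structure: short steps cost at most `K`, the special step `f`
joins `α f` and `β f` and costs at most `K + w f`. -/
theorem MTour.grow (hc : ∀ v, c (-v) = c v) {A : Finset (V D)} (h : MTour c φ Ω j A L) {ι : Type}
    (F : Finset ι) (α β : ι → V D) (w : ι → ℝ) (hw : ∀ f ∈ F, 0 ≤ w f) {K : ℝ} (hK : 0 ≤ K)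
    (hP : ∀ p ∈ P, ∃ q ∈ A, Relation.ReflTransGen
      (fun x y => x ∈ P ∧ y ∈ P ∧ (c (y - x) ≤ K ∨ ∃ f ∈ F,
        ((α f = x ∧ β f = y) ∨ (α f = y ∧ β f = x)) ∧ c (y - x) ≤ K + w f)) q p) :
    MTour c φ Ω j (A ∪ P) (L + 2 * K * P.card + 2 * ∑ f ∈ F, w f) := by
  have mono : ∀ S T : Finset ι, S ⊆ T → T ⊆ F → ∑ f ∈ S, w f ≤ ∑ f ∈ T, w f := fun S T h1 h2 =>
    sum_le_sum_of_subset_of_nonneg h1 fun f hf _ => hw f (h2 hf)
  have key : ∀ n : ℕ, ∀ Q : Finset (V D), Q ⊆ P → P.card ≤ Q.card + n →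
      MTour c φ Ω j (A ∪ Q) (L + 2 * K * Q.card +
        2 * ∑ f ∈ F.filter fun f => α f ∈ A ∪ Q ∧ β f ∈ A ∪ Q, w f) →
      MTour c φ Ω j (A ∪ P) (L + 2 * K * P.card + 2 * ∑ f ∈ F, w f) := by
    intro n
    have fin : ∀ Q : Finset (V D), Q ⊆ P → P ⊆ A ∪ Q →
        MTour c φ Ω j (A ∪ Q) (L + 2 * K * Q.card +
          2 * ∑ f ∈ F.filter fun f => α f ∈ A ∪ Q ∧ β f ∈ A ∪ Q, w f) →
        MTour c φ Ω j (A ∪ P) (L + 2 * K * P.card + 2 * ∑ f ∈ F, w f) := fun Q h1 h2 h3 => by
      refine h3.mono (union_subset subset_union_left h2) ?_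
      have h4 : (Q.card : ℝ) ≤ P.card := Nat.cast_le.2 (card_le_card h1)
      have h5 := mono _ _ (filter_subset (fun f => α f ∈ A ∪ Q ∧ β f ∈ A ∪ Q) F) Subset.rfl
      have h6 := mul_le_mul_of_nonneg_left h4 hK
      linarith
    induction n with
    | zero =>
      intro Q h1 h2 h3
      exact fin Q h1 ((eq_of_subset_of_card_le h1 h2) ▸ subset_union_right) h3
    | succ n ih =>
      intro Q h1 h2 h3
      by_cases h4 : P ⊆ A ∪ Q
      · exact fin Q h1 h4 h3
      obtain ⟨p, hp, hp'⟩ := not_subset.1 h4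
      obtain ⟨q, hq, hch⟩ := hP p hp
      obtain ⟨x, y, ⟨-, hy, hxy⟩, hx, hy'⟩ :=
        tourL_cross (S := fun x => x ∈ A ∪ Q) hch (mem_union_left _ hq) hp'
      have hyQ : y ∉ Q := fun h0 => hy' (mem_union_right _ h0)
      refine ih (Insert.insert y Q) (insert_subset hy h1) (by rw [card_insert_of_notMem hyQ]; omega) ?_
      have hsub : A ∪ Q ⊆ A ∪ Insert.insert y Q := union_subset_union_right (subset_insert _ _)
      refine (h3.insert hc (p := y) hx).mono (by rw [union_insert]) ?_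
      rw [card_insert_of_notMem hyQ]
      push_cast
      have hs : (F.filter fun f => α f ∈ A ∪ Q ∧ β f ∈ A ∪ Q) ⊆
          F.filter fun f => α f ∈ A ∪ Insert.insert y Q ∧ β f ∈ A ∪ Insert.insert y Q :=
        fun f hf => mem_filter.2 ⟨(mem_filter.1 hf).1, hsub (mem_filter.1 hf).2.1,
          hsub (mem_filter.1 hf).2.2⟩
      rcases hxy with hxy | ⟨f, hf, hf', hxy⟩
      · have := mono _ _ hs (filter_subset _ _)
        linarith
      · have hyy : y ∈ A ∪ Insert.insert y Q := mem_union_right _ (mem_insert_self _ _)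
        have hn : f ∉ F.filter fun f => α f ∈ A ∪ Q ∧ β f ∈ A ∪ Q := fun h0 => by
          have h5 := (mem_filter.1 h0).2
          rcases hf' with ⟨-, h6⟩ | ⟨h6, -⟩
          · exact hy' (h6 ▸ h5.2)
          · exact hy' (h6 ▸ h5.1)
        have hm : f ∈ F.filter fun f =>
            α f ∈ A ∪ Insert.insert y Q ∧ β f ∈ A ∪ Insert.insert y Q := by
          refine mem_filter.2 ⟨hf, ?_⟩
          rcases hf' with ⟨h6, h7⟩ | ⟨h6, h7⟩ <;> rw [h6, h7]
          · exact ⟨hsub hx, hyy⟩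
          · exact ⟨hyy, hsub hx⟩
        have := mono _ _ (insert_subset hm hs) (filter_subset _ _)
        rw [sum_insert hn] at this
        linarith
  refine key P.card ∅ (empty_subset _) (by simp) (h.mono (by simp) ?_)
  have := mono ∅ (F.filter fun f => α f ∈ A ∪ ∅ ∧ β f ∈ A ∪ ∅) (empty_subset _) (filter_subset _ _)
  rw [sum_empty] at this
  rw [card_empty, Nat.cast_zero, mul_zero]
  linarith

theorem MTour.near (h : MTour l1 φ Ω j P L) {Q : Finset (V D)} {δ : ℝ}
    (hQ : ∀ y ∈ Q, ∃ p ∈ P, l1 (y - p) ≤ δ) : MTour l1 φ Ω j (P ∪ Q) (L + 2 * δ * Q.card) := by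
  induction Q using Finset.induction_on with
  | empty => simpa using h
  | insert y Q hy ih =>
    obtain ⟨p, hp, h1⟩ := hQ y (mem_insert_self _ _)
    refine ((ih fun z hz => hQ z (mem_insert_of_mem hz)).insert l1_neg (p := y)
      (mem_union_left _ hp)).mono (by rw [union_insert]) ?_
    rw [card_insert_of_notMem hy]
    push_cast
    linarith

theorem MTour.closure (h : MTour l1 φ Ω j P L) {J R : Finset (Ed D)} (hR : ∀ e ∈ R, e ∈ J → e.1 ∈ P) :
    MTour l1 φ Ω j (P ∪ bases (cl J R)) (L + 4 * (cl J R).card) := by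
  have key := MTour.grow (P := bases (cl J R)) l1_neg h (∅ : Finset Unit) (fun _ => 0) (fun _ => 0)
    (fun _ => 0) (by simp) (K := 2) (by norm_num) (by
      intro p hp
      obtain ⟨e, he, rfl⟩ := mem_bases.1 hp
      obtain ⟨-, e0, h1, h2, h3⟩ := mem_filter.1 he
      refine ⟨e0.1, hR e0 h1 h2, ?_⟩
      clear he hp
      induction h3 with
      | refl => exact .refl
      | tail h4 h5 ih =>
        exact ih.tail ⟨mem_bases.2 ⟨_, mem_filter.2 ⟨h5.1, e0, h1, h2, h4⟩, rfl⟩,
          mem_bases.2 ⟨_, mem_filter.2 ⟨h5.2.1, e0, h1, h2, h4.tail h5⟩, rfl⟩,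
          Or.inl h5.2.2.l1_le⟩)
  refine key.mono Subset.rfl ?_
  have : ((bases (cl J R)).card : ℝ) ≤ (cl J R).card := Nat.cast_le.2 card_image_le
  rw [sum_empty]
  linarith

/-- Shortcutting: visit the points of `P` only, once each. -/
theorem MTour.short (h : MTour l1 φ Ω j P L) {θ K : ℝ} (hθ : 0 ≤ θ)
    (hc : ∀ v, c v ≤ θ * l1 v + K) : MTour c φ Ω j P (θ * L + K * P.card) := by
  obtain ⟨R, Q, ℓ, h1, h2, h3, h4, h5⟩ := h
  choose! ρ hρ1 hρ2 using h5
  refine ⟨R, fun r => P.filter fun p => ρ p = r,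
    fun r => θ * ℓ r + K * (P.filter fun p => ρ p = r).card, h1, h2, fun r hr => ?_, ?_,
    fun p hp => ⟨ρ p, hρ1 p hp, mem_filter.2 ⟨hp, rfl⟩⟩⟩
  · refine ((h3 r hr).mono (fun p hp => ?_) le_rfl).short hθ hc
    obtain ⟨h6, h7⟩ := mem_filter.1 hp
    exact h7 ▸ hρ2 p h6
  · rw [sum_add_distrib, ← mul_sum, ← mul_sum, ← Nat.cast_sum,
      ← card_eq_sum_card_fiberwise fun p hp => hρ1 p hp]
    have := mul_le_mul_of_nonneg_left h4 hθ
    linarith

theorem MTour.dn (h : MTour l1 id Ω j P L) (l : ℕ) :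
    MTour l1 (dn l) Ω j (P.image (dn l)) L := by
  obtain ⟨R, Q, ℓ, h1, h2, h3, h4, h5⟩ := h
  refine ⟨R, fun r => (Q r).image (MP_67bca4_pr.dn l), ℓ, h1, h2, fun r hr => (h3 r hr).dn l, h4,
    fun p hp => ?_⟩
  obtain ⟨x, hx, rfl⟩ := mem_image.1 hp
  obtain ⟨r, hr, h6⟩ := h5 x hx
  exact ⟨r, hr, mem_image_of_mem _ h6⟩

/-- Unused roots can be dropped. -/
theorem MTour.prune (h : MTour l1 φ Ω j P L) : MTour l1 φ Ω (min j P.card) P L := by
  obtain ⟨R, Q, ℓ, h1, h2, h3, h4, h5⟩ := h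
  choose! ρ hρ1 hρ2 using h5
  have hs : P.image ρ ⊆ R := fun r hr => by
    obtain ⟨p, hp, rfl⟩ := mem_image.1 hr
    exact hρ1 p hp
  refine ⟨P.image ρ, Q, ℓ, hs.trans h1, le_min ((card_le_card hs).trans h2) card_image_le,
    fun r hr => h3 r (hs hr), le_trans ?_ h4, fun p hp => ⟨ρ p, mem_image_of_mem _ hp, hρ2 p hp⟩⟩
  exact sum_le_sum_of_subset_of_nonneg hs fun r hr _ => (h3 r hr).nonneg

/-- The Lebowitz-Mazel tour through the edges of one direction, with several roots. -/
theorem lm_tourM (hD : 1 ≤ D) {J : Finset (Ed D)} (h1 : SqCl J) (h2 : Big J)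
    (h3 : MTour l1 φ Ω j (bases J) L) (i : Fin D) (hc : ∀ v, c (-v) = c v)
    {θ K₁ K₂ : ℝ} (hθ : 0 ≤ θ) (hK₁ : 0 ≤ K₁) (hK₂ : 0 ≤ K₂)
    (hl : ∀ v, c v ≤ θ * l1 v + K₁)
    (hs : ∀ (ρ : ℤ) (w : V D), l1 w ≤ 8 → c (ρ • ee i + w) ≤ |(ρ : ℝ)| / D + K₂) :
    MTour c φ Ω j (bases (dirE J i))
      (θ * L + K₁ * (J.card / (D : ℝ) ^ 3) + 2 * K₂ * (dirE J i).card + 2 * J.card / D) := by
  obtain ⟨A, hA, hA', hP⟩ := LM.reps h1 h2 hc hs
  have hD' : (0 : ℝ) < D := by exact_mod_cast hD
  have t1 := (h3.mono (hA.trans (image_subset_image (filter_subset _ _))) le_rfl).short hθ hl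
  have t2 := t1.grow (P := bases (dirE J i)) hc (LM.FF J i)
    (fun f => LM.phi (bases (dirE J i)) f.1) (fun f => LM.psi (bases (dirE J i)) i (f.1 + ee i))
    (fun f => (LM.rho J i f : ℝ) / D) (fun f _ => div_nonneg (Nat.cast_nonneg _) hD'.le) hK₂
    hP
  refine t2.mono subset_union_right ?_
  have a1 : (A.card : ℝ) ≤ J.card / (D : ℝ) ^ 3 := by
    rw [le_div_iff₀ (by positivity), mul_comm]; exact_mod_cast hA'
  have a2 : ((bases (dirE J i)).card : ℝ) ≤ (dirE J i).card := by exact_mod_cast card_image_le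
  have a3 : ∑ f ∈ LM.FF J i, (LM.rho J i f : ℝ) / D ≤ J.card / D := by
    rw [← sum_div]
    exact div_le_div_of_nonneg_right (by exact_mod_cast LM.sum_rho h1) hD'.le
  have a4 := mul_le_mul_of_nonneg_left a1 hK₁
  have a5 := mul_le_mul_of_nonneg_left a2 hK₂
  rw [mul_div_assoc]
  linarith

end Pool.Agent.P.MP_67bca4_pr
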